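import Mathlib

set_option autoImplicit false
set_option linter.unusedSectionVars false

namespace Pool.Agent.Q125.Zauner

open scoped InnerProductSpace ComplexConjugate

/-- A truncated moment datum: a sesquilinear map with the symmetry of a product of functions. -/
structure Dat (E U ι : Type*) [NormedAddCommGroup E] [InnerProductSpace ℂ E]
    [NormedAddCommGroup U] [InnerProductSpace ℂ U] where
  b : E → E → U
  x : ι → E
  add_left : ∀ u u' v, b (u + u') v = b u v + b u' v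
  smul_left : ∀ (c : ℂ) u v, b (c • u) v = c • b u v
  add_right : ∀ u v v', b u (v + v') = b u v + b u v'
  smul_right : ∀ (c : ℂ) u v, b u (c • v) = conj c • b u v
  sym1 : ∀ s t u v, ⟪b s t, b u v⟫_ℂ = ⟪b s u, b t v⟫_ℂ
  sym2 : ∀ s t u v, ⟪b s t, b u v⟫_ℂ = ⟪b v t, b u s⟫_ℂ
  norm : ∀ i j, b (x i) (x i) = b (x j) (x j)
  nondeg : ∀ z, (∀ u v, ⟪b u v, z⟫_ℂ = 0) → z = 0

variable {E U ι : Type*} [NormedAddCommGroup E] [InnerProductSpace ℂ E] [FiniteDimensional ℂ E]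
  [NormedAddCommGroup U] [InnerProductSpace ℂ U] [FiniteDimensional ℂ U]

namespace Dat

variable (D : Dat E U ι)

/-- vectors orthogonal to all `b u (x i)` -/
def NN (i : ι) : Submodule ℂ U where
  carrier := {z | ∀ u, ⟪D.b u (D.x i), z⟫_ℂ = 0}
  add_mem' := by
    intro z w hz hw u
    rw [inner_add_right, hz u, hw u, add_zero]
  zero_mem' := by intro u; exact inner_zero_right _
  smul_mem' := by
    intro c z hz u
    rw [inner_smul_right, hz u, mul_zero]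

/-- vectors orthogonal to all `b (x i) v` -/
def MM (i : ι) : Submodule ℂ U where
  carrier := {z | ∀ v, ⟪D.b (D.x i) v, z⟫_ℂ = 0}
  add_mem' := by
    intro z w hz hw u
    rw [inner_add_right, hz u, hw u, add_zero]
  zero_mem' := by intro u; exact inner_zero_right _
  smul_mem' := by
    intro c z hz u
    rw [inner_smul_right, hz u, mul_zero]

theorem mem_NN {i : ι} {z : U} : z ∈ D.NN i ↔ ∀ u, ⟪D.b u (D.x i), z⟫_ℂ = 0 := Iff.rfl
theorem mem_MM {i : ι} {z : U} : z ∈ D.MM i ↔ ∀ v, ⟪D.b (D.x i) v, z⟫_ℂ = 0 := Iff.rfl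

/-- `b · v` as a linear map -/
def bl (v : E) : E →ₗ[ℂ] U where
  toFun u := D.b u v
  map_add' u u' := D.add_left u u' v
  map_smul' c u := D.smul_left c u v

theorem bl_apply (v u : E) : D.bl v u = D.b u v := rfl

theorem b_sum_left {κ : Type*} (s : Finset κ) (f : κ → E) (v : E) :
    D.b (∑ k ∈ s, f k) v = ∑ k ∈ s, D.b (f k) v := map_sum (D.bl v) f s

/-- `b u ·` as an additive map -/
def br (u : E) : E →+ U where
  toFun v := D.b u v
  map_zero' := by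
    have h := D.smul_right 0 u 0
    simpa using h
  map_add' v v' := D.add_right u v v'

theorem b_sum_right {κ : Type*} (s : Finset κ) (u : E) (f : κ → E) :
    D.b u (∑ k ∈ s, f k) = ∑ k ∈ s, D.b u (f k) := map_sum (D.br u) f s

end Dat

/-- Extension of isometries from a surjective parametrisation. -/
theorem exists_isometry {P : Type*} [AddCommGroup P] [Module ℂ P] (Φ Φ' : P →ₗ[ℂ] U)
    (hΦ : Function.Surjective Φ) (h : ∀ p q, ⟪Φ p, Φ q⟫_ℂ = ⟪Φ' p, Φ' q⟫_ℂ) :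
    ∃ T : U →ₗ[ℂ] U, (∀ p, T (Φ p) = Φ' p) ∧ ∀ a c, ⟪T a, T c⟫_ℂ = ⟪a, c⟫_ℂ := by
  obtain ⟨Ψ, hΨ⟩ := Φ.exists_rightInverse_of_surjective (LinearMap.range_eq_top.mpr hΦ)
  have hΨ' : ∀ a, Φ (Ψ a) = a := fun a => by
    have := congrArg (fun f : U →ₗ[ℂ] U => f a) hΨ
    simpa using this
  have hk : ∀ p, Φ p = 0 → Φ' p = 0 := by
    intro p hp
    have h1 := h p p
    rw [hp, inner_zero_left] at h1
    exact inner_self_eq_zero.mp h1.symm
  have hT : ∀ p, Φ' (Ψ (Φ p)) = Φ' p := by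
    intro p
    have h1 : Φ (Ψ (Φ p) - p) = 0 := by rw [map_sub, hΨ', sub_self]
    have h2 := hk _ h1
    rw [map_sub, sub_eq_zero] at h2
    exact h2
  refine ⟨Φ' ∘ₗ Ψ, hT, ?_⟩
  intro a c
  rw [LinearMap.comp_apply, LinearMap.comp_apply, ← h, hΨ', hΨ']

namespace Dat

variable (D : Dat E U ι)

/-- the unitary multiplication by x_i times conj x_m -/
theorem exists_T (i m : ι) (h : ∀ z, z ∈ D.NN i → z ∈ D.MM m → z = 0) :
    ∃ T : U →ₗ[ℂ] U, (∀ a c, ⟪T a, T c⟫_ℂ = ⟪a, c⟫_ℂ) ∧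
      (∀ u, T (D.b u (D.x i)) = D.b u (D.x m)) ∧
      (∀ v, T (D.b (D.x m) v) = D.b (D.x i) v) := by
  classical
  let e := stdOrthonormalBasis ℂ E
  let κ := Fin (Module.finrank ℂ E)
  let mk : ι → ι → (E × (κ → ℂ)) →ₗ[ℂ] U := fun i m =>
    { toFun := fun p => D.b p.1 (D.x i) + ∑ k, p.2 k • D.b (D.x m) (e k)
      map_add' := by
        intro p q
        simp only [Prod.fst_add, Prod.snd_add, Pi.add_apply, D.add_left, add_smul,
          Finset.sum_add_distrib]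
        abel
      map_smul' := by
        intro c p
        simp only [Prod.smul_fst, Prod.smul_snd, Pi.smul_apply, D.smul_left, smul_eq_mul,
          RingHom.id_apply, smul_add, Finset.smul_sum, mul_smul] }
  have hmk : ∀ i m p, mk i m p = D.b p.1 (D.x i) + ∑ k, p.2 k • D.b (D.x m) (e k) :=
    fun _ _ _ => rfl
  have hexp : ∀ (m : ι) (v : E), D.b (D.x m) v = ∑ k, (conj ⟪e k, v⟫_ℂ) • D.b (D.x m) (e k) := by
    intro m v
    conv_lhs => rw [← e.sum_repr' v]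
    rw [D.b_sum_right]
    exact Finset.sum_congr rfl fun k _ => D.smul_right _ _ _
  have hin : ∀ i m (v : E), mk i m (0, fun k => conj ⟪e k, v⟫_ℂ) = D.b (D.x m) v := by
    intro i m v
    rw [hmk, ← hexp]
    have h0 : D.b (0 : E) (D.x i) = 0 := by
      have := D.smul_left 0 0 (D.x i)
      simpa using this
    show D.b 0 (D.x i) + _ = _
    rw [h0, zero_add]
  have hin1 : ∀ i m (u : E), mk i m (u, 0) = D.b u (D.x i) := by
    intro i m u
    rw [hmk]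
    simp
  -- inner products
  have hI : ∀ p q, ⟪mk i m p, mk i m q⟫_ℂ = ⟪mk m i p, mk m i q⟫_ℂ := by
    intro p q
    rw [hmk, hmk, hmk, hmk]
    simp only [inner_add_left, inner_add_right, sum_inner, inner_sum, inner_smul_left,
      inner_smul_right]
    have e1 : ⟪D.b p.1 (D.x i), D.b q.1 (D.x i)⟫_ℂ = ⟪D.b p.1 (D.x m), D.b q.1 (D.x m)⟫_ℂ := by
      rw [D.sym1, D.sym1 p.1 (D.x m), D.norm i m]
    have e2 : ∀ k, ⟪D.b p.1 (D.x i), D.b (D.x m) (e k)⟫_ℂ = ⟪D.b p.1 (D.x m), D.b (D.x i) (e k)⟫_ℂ :=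
      fun k => D.sym1 _ _ _ _
    have e3 : ∀ k, ⟪D.b (D.x m) (e k), D.b q.1 (D.x i)⟫_ℂ = ⟪D.b (D.x i) (e k), D.b q.1 (D.x m)⟫_ℂ :=
      fun k => D.sym2 _ _ _ _
    have e4 : ∀ k l, ⟪D.b (D.x m) (e k), D.b (D.x m) (e l)⟫_ℂ =
        ⟪D.b (D.x i) (e k), D.b (D.x i) (e l)⟫_ℂ := by
      intro k l
      rw [D.sym1, D.sym1 (D.x i) (e k), D.norm i m]
    simp only [e1, e2, e3, e4]
  have hsurj : Function.Surjective (mk i m) := by
    rw [← LinearMap.range_eq_top, ← Submodule.orthogonal_eq_bot_iff, Submodule.eq_bot_iff]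
    intro z hz
    rw [Submodule.mem_orthogonal] at hz
    apply h z
    · intro u
      rw [← hin1 i m u]
      exact hz _ ⟨_, rfl⟩
    · intro v
      rw [← hin i m v]
      exact hz _ ⟨_, rfl⟩
  obtain ⟨T, hT1, hT2⟩ := exists_isometry (mk i m) (mk m i) hsurj hI
  refine ⟨T, hT2, ?_, ?_⟩
  · intro u
    rw [← hin1 i m u, hT1, hin1]
  · intro v
    rw [← hin i m v, hT1, hin]

/-- the defining properties of multiplication by x_i times conj x_m -/
structure IsT (i m : ι) (T : U →ₗ[ℂ] U) : Prop where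
  iso : ∀ a c, ⟪T a, T c⟫_ℂ = ⟪a, c⟫_ℂ
  left : ∀ u, T (D.b u (D.x i)) = D.b u (D.x m)
  right : ∀ v, T (D.b (D.x m) v) = D.b (D.x i) v
  sep : ∀ z, z ∈ D.NN i → z ∈ D.MM m → z = 0
  sep' : ∀ z, z ∈ D.NN m → z ∈ D.MM i → z = 0

theorem exists_isT (i m : ι) (h : ∀ z, z ∈ D.NN i → z ∈ D.MM m → z = 0) :
    ∃ T, D.IsT i m T := by
  obtain ⟨T, h1, h2, h3⟩ := D.exists_T i m h
  refine ⟨T, h1, h2, h3, h, ?_⟩
  intro z hz1 hz2
  have hinj : Function.Injective T := by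
    rw [← LinearMap.ker_eq_bot, LinearMap.ker_eq_bot']
    intro a ha
    have := h1 a a
    rw [ha, inner_zero_left] at this
    exact inner_self_eq_zero.mp this.symm
  obtain ⟨w, hw⟩ := (LinearMap.injective_iff_surjective.mp hinj) z
  have hw0 : w = 0 := by
    apply h
    · intro u
      rw [← h1, h2, hw]
      exact hz1 u
    · intro v
      rw [← h1, h3, hw]
      exact hz2 v
  rw [← hw, hw0, map_zero]

namespace IsT

variable {D}
variable {i m j l n p q : ι} {T T' : U →ₗ[ℂ] U}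

theorem adjL (h : D.IsT i m T) (u : E) (z : U) :
    ⟪D.b u (D.x m), T z⟫_ℂ = ⟪D.b u (D.x i), z⟫_ℂ := by
  rw [← h.left, h.iso]

theorem adjR (h : D.IsT i m T) (v : E) (z : U) :
    ⟪D.b (D.x i) v, T z⟫_ℂ = ⟪D.b (D.x m) v, z⟫_ℂ := by
  rw [← h.right, h.iso]

/-- two maps with the same matrix elements agree -/
theorem ext_of (h : D.IsT i m T) {z w : U}
    (h1 : ∀ u, ⟪D.b u (D.x m), z⟫_ℂ = ⟪D.b u (D.x m), w⟫_ℂ)
    (h2 : ∀ v, ⟪D.b (D.x i) v, z⟫_ℂ = ⟪D.b (D.x i) v, w⟫_ℂ) : z = w := by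
  rw [← sub_eq_zero]
  apply h.sep'
  · intro u
    rw [inner_sub_right, h1, sub_self]
  · intro v
    rw [inner_sub_right, h2, sub_self]

theorem inv (h : D.IsT i m T) (h' : D.IsT m i T') (z : U) : T' (T z) = z := by
  apply h'.ext_of
  · intro u
    rw [h'.adjL, h.adjL]
  · intro v
    rw [h'.adjR, h.adjR]

theorem adj (h : D.IsT i m T) (h' : D.IsT m i T') (z w : U) : ⟪T z, w⟫_ℂ = ⟪z, T' w⟫_ℂ := by
  rw [← h.iso z (T' w), h'.inv h]

/-- the exchange lemma, first indices -/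
theorem exchV {i p m q : ι} {A B C F : U →ₗ[ℂ] U} (hA : D.IsT i m A) (hB : D.IsT p m B)
    (hC : D.IsT p q C) (hF : D.IsT i q F)
    (hind : ∀ z ∈ D.NN m, z ∈ D.NN q ⊔ (D.MM i ⊔ D.MM p) → z = 0) :
    A (D.b (D.x p) (D.x q)) = B (D.b (D.x i) (D.x q)) := by
  set Q1 := A (D.b (D.x p) (D.x q)) with hQ1
  set Q2 := B (D.b (D.x i) (D.x q)) with hQ2
  set Q3 := C (D.b (D.x i) (D.x m)) with hQ3
  set Q4 := F (D.b (D.x p) (D.x m)) with hQ4
  have h21 : Q2 - Q1 ∈ D.NN m := by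
    intro u
    rw [inner_sub_right, hQ1, hQ2, hA.adjL, hB.adjL, D.sym1, sub_self]
  have h34 : Q3 - Q4 ∈ D.NN q := by
    intro u
    rw [inner_sub_right, hQ3, hQ4, hC.adjL, hF.adjL, D.sym1, sub_self]
  have h41 : Q4 - Q1 ∈ D.MM i := by
    intro v
    rw [inner_sub_right, hQ1, hQ4, hA.adjR, hF.adjR, D.sym2, sub_self]
  have h32 : Q3 - Q2 ∈ D.MM p := by
    intro v
    rw [inner_sub_right, hQ2, hQ3, hB.adjR, hC.adjR, D.sym2, sub_self]
  have h := hind _ h21 (by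
    have e : Q2 - Q1 = (Q3 - Q4) + ((Q4 - Q1) + (-(Q3 - Q2))) := by abel
    rw [e]
    exact Submodule.add_mem_sup h34 (Submodule.add_mem_sup h41 (Submodule.neg_mem _ h32)))
  rw [sub_eq_zero] at h
  exact h.symm

/-- the exchange lemma, second indices -/
theorem exchW {i p m q : ι} {A B C F : U →ₗ[ℂ] U} (hA : D.IsT i m A) (hB : D.IsT p m B)
    (hC : D.IsT p q C) (hF : D.IsT i q F)
    (hind : ∀ z ∈ D.MM i, z ∈ D.MM p ⊔ (D.NN m ⊔ D.NN q) → z = 0) :
    A (D.b (D.x p) (D.x q)) = F (D.b (D.x p) (D.x m)) := by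
  set Q1 := A (D.b (D.x p) (D.x q)) with hQ1
  set Q2 := B (D.b (D.x i) (D.x q)) with hQ2
  set Q3 := C (D.b (D.x i) (D.x m)) with hQ3
  set Q4 := F (D.b (D.x p) (D.x m)) with hQ4
  have h21 : Q2 - Q1 ∈ D.NN m := by
    intro u
    rw [inner_sub_right, hQ1, hQ2, hA.adjL, hB.adjL, D.sym1, sub_self]
  have h34 : Q3 - Q4 ∈ D.NN q := by
    intro u
    rw [inner_sub_right, hQ3, hQ4, hC.adjL, hF.adjL, D.sym1, sub_self]
  have h41 : Q4 - Q1 ∈ D.MM i := by
    intro v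
    rw [inner_sub_right, hQ1, hQ4, hA.adjR, hF.adjR, D.sym2, sub_self]
  have h32 : Q3 - Q2 ∈ D.MM p := by
    intro v
    rw [inner_sub_right, hQ2, hQ3, hB.adjR, hC.adjR, D.sym2, sub_self]
  have h := hind _ h41 (by
    have e : Q4 - Q1 = (Q3 - Q2) + ((Q2 - Q1) + (-(Q3 - Q4))) := by abel
    rw [e]
    exact Submodule.add_mem_sup h32 (Submodule.add_mem_sup h21 (Submodule.neg_mem _ h34)))
  rw [sub_eq_zero] at h
  exact h.symm

end IsT

end Dat

end Pool.Agent.Q125.Zauner
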