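import Mathlib
import Pool.Agent.Q125.Zauner.Alg

set_option autoImplicit false
set_option linter.unusedSectionVars false

namespace Pool.Agent.Q125.Zauner

open scoped InnerProductSpace ComplexConjugate

variable {E U ι : Type*} [NormedAddCommGroup E] [InnerProductSpace ℂ E] [FiniteDimensional ℂ E]
  [NormedAddCommGroup U] [InnerProductSpace ℂ U] [FiniteDimensional ℂ U]

namespace Dat

variable (D : Dat E U ι)

/-- the vectors `x q`, `q ∈ S`, span -/
def Spans (S : Set ι) : Prop := Submodule.span ℂ (D.x '' S) = ⊤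

variable {D}

theorem Spans.ext_left {S : Set ι} (hS : D.Spans S) {F G : U →ₗ[ℂ] U} {v w : E}
    (h : ∀ q ∈ S, F (D.b (D.x q) v) = G (D.b (D.x q) w)) (u : E) : F (D.b u v) = G (D.b u w) := by
  have hu : u ∈ Submodule.span ℂ (D.x '' S) := by rw [hS]; trivial
  induction hu using Submodule.span_induction with
  | mem u hu =>
    obtain ⟨q, hq, rfl⟩ := hu
    exact h q hq
  | zero =>
    have h0 : ∀ v, D.b (0 : E) v = 0 := fun v => by
      have := D.smul_left 0 0 v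
      simpa using this
    rw [h0, h0, map_zero, map_zero]
  | add a b _ _ ha hb => rw [D.add_left, D.add_left, map_add, map_add, ha, hb]
  | smul c a _ ha => rw [D.smul_left, D.smul_left, map_smul, map_smul, ha]

theorem Spans.ext_right {S : Set ι} (hS : D.Spans S) {F G : U →ₗ[ℂ] U} {u w : E}
    (h : ∀ q ∈ S, F (D.b u (D.x q)) = G (D.b w (D.x q))) (v : E) : F (D.b u v) = G (D.b w v) := by
  have hv : v ∈ Submodule.span ℂ (D.x '' S) := by rw [hS]; trivial
  induction hv using Submodule.span_induction with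
  | mem u hu =>
    obtain ⟨q, hq, rfl⟩ := hu
    exact h q hq
  | zero =>
    have h0 : ∀ v, D.b v (0 : E) = 0 := fun v => by
      have := D.smul_right 0 v 0
      simpa using this
    rw [h0, h0, map_zero, map_zero]
  | add a b _ _ ha hb => rw [D.add_right, D.add_right, map_add, map_add, ha, hb]
  | smul c a _ ha => rw [D.smul_right, D.smul_right, map_smul, map_smul, ha]

theorem IsT.ext_dom {i m : ι} {T F G : U →ₗ[ℂ] U} (h : D.IsT i m T)
    (h1 : ∀ u, F (D.b u (D.x i)) = G (D.b u (D.x i)))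
    (h2 : ∀ v, F (D.b (D.x m) v) = G (D.b (D.x m) v)) (z : U) : F z = G z := by
  have hk : LinearMap.ker (F - G) = ⊤ := by
    rw [← Submodule.orthogonal_eq_bot_iff, Submodule.eq_bot_iff]
    intro z hz
    rw [Submodule.mem_orthogonal] at hz
    apply h.sep
    · intro u
      apply hz
      rw [LinearMap.mem_ker, LinearMap.sub_apply, h1, sub_self]
    · intro v
      apply hz
      rw [LinearMap.mem_ker, LinearMap.sub_apply, h2, sub_self]
  have hz : z ∈ LinearMap.ker (F - G) := by rw [hk]; trivial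
  rw [LinearMap.mem_ker, LinearMap.sub_apply, sub_eq_zero] at hz
  exact hz

variable (D)

/-- `N_i` and `M_m` are independent -/
def Sep (i m : ι) : Prop := ∀ z, z ∈ D.NN i → z ∈ D.MM m → z = 0

open Classical in
/-- multiplication by `x_i x̄_m` -/
noncomputable def T (i m : ι) : U →ₗ[ℂ] U :=
  if h : D.Sep i m then (D.exists_isT i m h).choose else 0

variable {D}

theorem isT {i m : ι} (h : D.Sep i m) : D.IsT i m (D.T i m) := by
  rw [T, dif_pos h]
  exact (D.exists_isT i m h).choose_spec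

theorem Sep.symm {i m : ι} (h : D.Sep i m) : D.Sep m i := (isT h).sep'

/-- the second cocycle law `T_in T_nm = T_im` -/
theorem cocycle2 {S : Set ι} (hS : D.Spans S) {i n m : ι} (hin : D.Sep i n) (hnm : D.Sep n m)
    (him : D.Sep i m) (hr1 : ∀ r ∈ S, D.Sep r n) (hr2 : ∀ r ∈ S, D.Sep r i)
    (hW : ∀ r ∈ S, ∀ z ∈ D.MM m, z ∈ D.MM r ⊔ (D.NN n ⊔ D.NN i) → z = 0) (z : U) :
    D.T i n (D.T n m z) = D.T i m z := by
  have hA := isT hin
  have hB := isT hnm
  have hC := isT him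
  have hB' := isT hnm.symm
  have hC' := isT him.symm
  have key : ∀ u, D.T m n (D.b u (D.x i)) = D.T m i (D.b u (D.x n)) :=
    hS.ext_left fun r hr => IsT.exchW hB' (isT (hr1 r hr)) (isT (hr2 r hr)) hC' (hW r hr)
  apply hA.ext_of
  · intro u
    rw [hA.adjL, ← hB'.adj hB, key, hC'.adj hC]
  · intro v
    rw [hA.adjR, hB.adjR, hC.adjR]

/-- the first cocycle law `T_nm T_in = T_im` -/
theorem cocycle1 {S : Set ι} (hS : D.Spans S) {i n m : ι} (hin : D.Sep i n) (hnm : D.Sep n m)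
    (him : D.Sep i m) (hr1 : ∀ r ∈ S, D.Sep m r) (hr2 : ∀ r ∈ S, D.Sep i r)
    (hV : ∀ r ∈ S, ∀ z ∈ D.NN n, z ∈ D.NN r ⊔ (D.MM i ⊔ D.MM m) → z = 0) (z : U) :
    D.T n m (D.T i n z) = D.T i m z := by
  have hA := isT hin
  have hB := isT hnm
  have hC := isT him
  have hB' := isT hnm.symm
  have key : ∀ v, D.T i n (D.b (D.x m) v) = D.T m n (D.b (D.x i) v) :=
    hS.ext_right fun r hr => IsT.exchV hA hB' (isT (hr1 r hr)) (isT (hr2 r hr)) (hV r hr)
  have := hC.ext_dom (F := D.T n m ∘ₗ D.T i n) (G := D.T i m) (by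
    intro u
    rw [LinearMap.comp_apply, hA.left, hB.left, hC.left]) (by
    intro v
    rw [LinearMap.comp_apply, key, hB'.inv hB, hC.right]) z
  exact this

/-- commutation on half of the space -/
theorem comm_half {S : Set ι} (hS : D.Spans S) {i m j l : ι} (him : D.Sep i m) (hjl : D.Sep j l)
    (hjm : D.Sep j m) (hlm : D.Sep l m)
    (hri : ∀ r ∈ S, D.Sep i r) (hrj : ∀ r ∈ S, D.Sep j r) (hrl : ∀ r ∈ S, D.Sep l r)
    (hV1 : ∀ r ∈ S, ∀ z ∈ D.NN m, z ∈ D.NN r ⊔ (D.MM i ⊔ D.MM j) → z = 0)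
    (hV2 : ∀ r ∈ S, ∀ z ∈ D.NN m, z ∈ D.NN r ⊔ (D.MM i ⊔ D.MM l) → z = 0)
    (hc : ∀ z, D.T j l (D.T l m z) = D.T j m z) (v : E) :
    D.T i m (D.T j l (D.b (D.x l) v)) = D.T j l (D.T i m (D.b (D.x l) v)) := by
  have hA := isT him
  have hF := isT hjl
  have k1 : ∀ v, D.T i m (D.b (D.x j) v) = D.T j m (D.b (D.x i) v) :=
    hS.ext_right fun r hr => IsT.exchV hA (isT hjm) (isT (hrj r hr)) (isT (hri r hr)) (hV1 r hr)
  have k2 : ∀ v, D.T i m (D.b (D.x l) v) = D.T l m (D.b (D.x i) v) :=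
    hS.ext_right fun r hr => IsT.exchV hA (isT hlm) (isT (hrl r hr)) (isT (hri r hr)) (hV2 r hr)
  rw [hF.right, k1, k2, hc]

/-- two linear maps agree if they agree on `b (x l) ·` and `b (x m) ·` -/
theorem ext_mm {l m : ι} (h : ∀ z, z ∈ D.MM l → z ∈ D.MM m → z = 0) {F G : U →ₗ[ℂ] U}
    (h1 : ∀ v, F (D.b (D.x l) v) = G (D.b (D.x l) v))
    (h2 : ∀ v, F (D.b (D.x m) v) = G (D.b (D.x m) v)) (z : U) : F z = G z := by
  have hk : LinearMap.ker (F - G) = ⊤ := by
    rw [← Submodule.orthogonal_eq_bot_iff, Submodule.eq_bot_iff]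
    intro z hz
    rw [Submodule.mem_orthogonal] at hz
    apply h
    · intro u
      apply hz
      rw [LinearMap.mem_ker, LinearMap.sub_apply, h1, sub_self]
    · intro v
      apply hz
      rw [LinearMap.mem_ker, LinearMap.sub_apply, h2, sub_self]
  have hz : z ∈ LinearMap.ker (F - G) := by rw [hk]; trivial
  rw [LinearMap.mem_ker, LinearMap.sub_apply, sub_eq_zero] at hz
  exact hz

variable (D)

/-- `q` is generic with respect to the subspace `W` -/
structure Gen (q : ι) (W : Submodule ℂ U) : Prop where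
  nn : ∀ z ∈ W, z ∈ D.NN q → z = 0
  mm : ∀ z ∈ W, z ∈ D.MM q → z = 0

/-- `p` is among the indices which make up `W` -/
structure In (p : ι) (W : Submodule ℂ U) : Prop where
  nn : D.NN p ≤ W
  mm : D.MM p ≤ W

variable {D}

theorem In.mono {p : ι} {W W' : Submodule ℂ U} (h : D.In p W) (hW : W ≤ W') : D.In p W' :=
  ⟨h.nn.trans hW, h.mm.trans hW⟩

theorem Gen.mono {p : ι} {W W' : Submodule ℂ U} (h : D.Gen p W') (hW : W ≤ W') : D.Gen p W :=
  ⟨fun z hz => h.nn z (hW hz), fun z hz => h.mm z (hW hz)⟩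

theorem Gen.sep {c p : ι} {W : Submodule ℂ U} (h : D.Gen c W) (hp : D.In p W) : D.Sep c p :=
  fun z h1 h2 => h.nn z (hp.mm h2) h1

theorem Gen.sep' {c p : ι} {W : Submodule ℂ U} (h : D.Gen c W) (hp : D.In p W) : D.Sep p c :=
  fun z h1 h2 => h.mm z (hp.nn h1) h2

theorem Gen.mmmm {c p : ι} {W : Submodule ℂ U} (h : D.Gen c W) (hp : D.In p W) :
    ∀ z, z ∈ D.MM p → z ∈ D.MM c → z = 0 := fun z h1 h2 => h.mm z (hp.mm h1) h2

/-- `N_m ∩ (M_p + M_q) = 0` and `M_m ∩ (N_p + N_q) = 0` -/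
structure Tri (m p q : ι) : Prop where
  v : ∀ z ∈ D.NN m, z ∈ D.MM p ⊔ D.MM q → z = 0
  w : ∀ z ∈ D.MM m, z ∈ D.NN p ⊔ D.NN q → z = 0

theorem Tri.swap {m p q : ι} (h : D.Tri m p q) : D.Tri m q p :=
  ⟨fun z h1 h2 => h.v z h1 (by rwa [sup_comm]), fun z h1 h2 => h.w z h1 (by rwa [sup_comm])⟩

theorem Gen.tri_a {c p q : ι} {W : Submodule ℂ U} (h : D.Gen c W) (hp : D.In p W)
    (hq : D.In q W) : D.Tri c p q :=
  ⟨fun z h1 h2 => h.nn z (sup_le hp.mm hq.mm h2) h1,
    fun z h1 h2 => h.mm z (sup_le hp.nn hq.nn h2) h1⟩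

theorem Gen.tri_b {c p q : ι} {W : Submodule ℂ U} (h : D.Gen c W) (hp : D.In p W)
    (hq : D.In q W) (hs : D.Sep p q) : D.Tri p q c := by
  constructor
  · intro z h1 h2
    obtain ⟨a, ha, b, hb, rfl⟩ := Submodule.mem_sup.mp h2
    have hb0 : b = 0 := by
      apply h.mm b _ hb
      have : b = (a + b) - a := by abel
      rw [this]
      exact Submodule.sub_mem _ (hp.nn h1) (hq.mm ha)
    rw [hb0, add_zero] at h1 ⊢
    exact hs a h1 ha
  · intro z h1 h2
    obtain ⟨a, ha, b, hb, rfl⟩ := Submodule.mem_sup.mp h2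
    have hb0 : b = 0 := by
      apply h.nn b _ hb
      have : b = (a + b) - a := by abel
      rw [this]
      exact Submodule.sub_mem _ (hp.mm h1) (hq.nn ha)
    rw [hb0, add_zero] at h1 ⊢
    exact hs.symm a ha h1

theorem Tri.fullV {m p q r : ι} {W : Submodule ℂ U} (h : D.Tri m p q) (hr : D.Gen r W)
    (hm : D.In m W) (hp : D.In p W) (hq : D.In q W) :
    ∀ z ∈ D.NN m, z ∈ D.NN r ⊔ (D.MM p ⊔ D.MM q) → z = 0 := by
  intro z h1 h2
  obtain ⟨a, ha, b, hb, rfl⟩ := Submodule.mem_sup.mp h2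
  have ha0 : a = 0 := by
    apply hr.nn a _ ha
    have : a = (a + b) - b := by abel
    rw [this]
    exact Submodule.sub_mem _ (hm.nn h1) (sup_le hp.mm hq.mm hb)
  rw [ha0, zero_add] at h1 ⊢
  exact h.v b h1 hb

theorem Tri.fullW {m p q r : ι} {W : Submodule ℂ U} (h : D.Tri m p q) (hr : D.Gen r W)
    (hm : D.In m W) (hp : D.In p W) (hq : D.In q W) :
    ∀ z ∈ D.MM m, z ∈ D.MM r ⊔ (D.NN p ⊔ D.NN q) → z = 0 := by
  intro z h1 h2
  obtain ⟨a, ha, b, hb, rfl⟩ := Submodule.mem_sup.mp h2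
  have ha0 : a = 0 := by
    apply hr.mm a _ ha
    have : a = (a + b) - b := by abel
    rw [this]
    exact Submodule.sub_mem _ (hm.mm h1) (sup_le hp.nn hq.nn hb)
  rw [ha0, zero_add] at h1 ⊢
  exact h.w b h1 hb

/-- cocycle law in terms of genericity -/
theorem coc2 {W : Submodule ℂ U} (hS : D.Spans {q | D.Gen q W}) {i n m : ι}
    (hi : D.In i W) (hn : D.In n W) (hm : D.In m W)
    (hin : D.Sep i n) (hnm : D.Sep n m) (him : D.Sep i m) (h : D.Tri m n i) (z : U) :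
    D.T i n (D.T n m z) = D.T i m z :=
  cocycle2 hS hin hnm him (fun _ hr => Gen.sep hr hn) (fun _ hr => Gen.sep hr hi)
    (fun _ hr => h.fullW hr hm hn hi) z

theorem coc1 {W : Submodule ℂ U} (hS : D.Spans {q | D.Gen q W}) {i n m : ι}
    (hi : D.In i W) (hn : D.In n W) (hm : D.In m W)
    (hin : D.Sep i n) (hnm : D.Sep n m) (him : D.Sep i m) (h : D.Tri n i m) (z : U) :
    D.T n m (D.T i n z) = D.T i m z :=
  cocycle1 hS hin hnm him (fun _ hr => Gen.sep' hr hm) (fun _ hr => Gen.sep' hr hi)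
    (fun _ hr => h.fullV hr hn hi hm) z

theorem half {W : Submodule ℂ U} (hS : D.Spans {q | D.Gen q W}) {i m j l : ι}
    (hi : D.In i W) (hm : D.In m W) (hj : D.In j W) (hl : D.In l W)
    (him : D.Sep i m) (hjl : D.Sep j l) (hjm : D.Sep j m) (hlm : D.Sep l m)
    (h1 : D.Tri m i j) (h2 : D.Tri m i l) (h3 : D.Tri m l j) (v : E) :
    D.T i m (D.T j l (D.b (D.x l) v)) = D.T j l (D.T i m (D.b (D.x l) v)) :=
  comm_half hS him hjl hjm hlm (fun _ hr => Gen.sep' hr hi) (fun _ hr => Gen.sep' hr hj)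
    (fun _ hr => Gen.sep' hr hl) (fun _ hr => h1.fullV hr hm hi hj)
    (fun _ hr => h2.fullV hr hm hi hl)
    (coc2 hS hj hl hm hjl hlm hjm h3) v

/-- full commutation -/
theorem comm {W : Submodule ℂ U} (hS : D.Spans {q | D.Gen q W}) {i m j l : ι}
    (hi : D.In i W) (hm : D.In m W) (hj : D.In j W) (hl : D.In l W)
    (him : D.Sep i m) (hjl : D.Sep j l) (hjm : D.Sep j m) (hil : D.Sep i l) (hlm : D.Sep l m)
    (h1 : D.Tri m i j) (h2 : D.Tri m i l) (h3 : D.Tri m l j)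
    (h4 : D.Tri l i j) (h5 : D.Tri l j m) (h6 : D.Tri l m i)
    (hmm : ∀ z, z ∈ D.MM l → z ∈ D.MM m → z = 0) (z : U) :
    D.T i m (D.T j l z) = D.T j l (D.T i m z) := by
  have := ext_mm hmm (F := D.T i m ∘ₗ D.T j l) (G := D.T j l ∘ₗ D.T i m)
    (fun v => half hS hi hm hj hl him hjl hjm hlm h1 h2 h3 v)
    (fun v => (half hS hj hl hi hm hjl him hil hlm.symm h4.swap h5 h6 v).symm) z
  exact this

variable (D)

/-- the span of all `N_a + M_a`, `a ∈ A` -/
def TT (A : Finset ι) : Submodule ℂ U := A.sup fun a => D.NN a ⊔ D.MM a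

variable {D}

theorem in_TT {A : Finset ι} {a : ι} (h : a ∈ A) : D.In a (D.TT A) := by
  have h1 : D.NN a ⊔ D.MM a ≤ D.TT A := Finset.le_sup (f := fun a => D.NN a ⊔ D.MM a) h
  exact ⟨le_sup_left.trans h1, le_sup_right.trans h1⟩

theorem TT_mono {A B : Finset ι} (h : A ⊆ B) : D.TT A ≤ D.TT B := Finset.sup_mono h

theorem Spans.nonempty [Nontrivial E] {S : Set ι} (h : D.Spans S) : S.Nonempty := by
  by_contra hcon
  rw [Set.not_nonempty_iff_eq_empty] at hcon
  subst hcon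
  rw [Spans, Set.image_empty, Submodule.span_empty] at h
  exact bot_ne_top h

/-- The operators `T i o` commute, for all `i` which are generic with respect to `o`. -/
theorem comm_base [Nontrivial E] [DecidableEq ι]
    (H : ∀ A : Finset ι, A.card ≤ 5 → D.Spans {q | D.Gen q (D.TT A)}) {o i j : ι}
    (hi : D.Gen i (D.TT {o})) (hj : D.Gen j (D.TT {o})) (z : U) :
    D.T i o (D.T j o z) = D.T j o (D.T i o z) := by
  obtain ⟨n, hn⟩ := (H {o, i, j} (Finset.card_le_three.trans (by norm_num))).nonempty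
  obtain ⟨n', hn'⟩ := (H {o, i, j, n} (Finset.card_le_four.trans (by norm_num))).nonempty
  have hS := H {o, i, j, n, n'} Finset.card_le_five
  set W := D.TT {o, i, j, n, n'} with hW
  have W3 : D.TT {o, i, j} ≤ W := TT_mono (by
    intro a; simp only [Finset.mem_insert, Finset.mem_singleton]; tauto)
  have W4 : D.TT {o, i, j, n} ≤ W := TT_mono (by
    intro a; simp only [Finset.mem_insert, Finset.mem_singleton]; tauto)
  have io : D.In o W := in_TT (by simp)
  have ii : D.In i W := in_TT (by simp)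
  have ij : D.In j W := in_TT (by simp)
  have in' : D.In n W := in_TT (by simp)
  have in'' : D.In n' W := in_TT (by simp)
  have o1 : D.In o (D.TT {o}) := in_TT (by simp)
  have o3 : D.In o (D.TT {o, i, j}) := in_TT (by simp)
  have i3 : D.In i (D.TT {o, i, j}) := in_TT (by simp)
  have j3 : D.In j (D.TT {o, i, j}) := in_TT (by simp)
  have o4 : D.In o (D.TT {o, i, j, n}) := in_TT (by simp)
  have i4 : D.In i (D.TT {o, i, j, n}) := in_TT (by simp)
  have j4 : D.In j (D.TT {o, i, j, n}) := in_TT (by simp)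
  have n4 : D.In n (D.TT {o, i, j, n}) := in_TT (by simp)
  -- separations
  have s_io : D.Sep i o := hi.sep o1
  have s_jo : D.Sep j o := hj.sep o1
  have s_no : D.Sep n o := Gen.sep hn o3
  have s_ni : D.Sep n i := Gen.sep hn i3
  have s_nj : D.Sep n j := Gen.sep hn j3
  have s_n'o : D.Sep n' o := Gen.sep hn' o4
  have s_n'i : D.Sep n' i := Gen.sep hn' i4
  have s_n'j : D.Sep n' j := Gen.sep hn' j4
  have s_n'n : D.Sep n' n := Gen.sep hn' n4
  -- the factorisations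
  have f1 : ∀ z, D.T i n (D.T n o z) = D.T i o z :=
    coc2 hS ii in' io s_ni.symm s_no s_io (Gen.tri_b hn o3 i3 s_io.symm).swap
  have f2 : ∀ z, D.T j n' (D.T n' o z) = D.T j o z :=
    coc2 hS ij in'' io s_n'j.symm s_n'o s_jo (Gen.tri_b hn' o4 j4 s_jo.symm).swap
  -- the commutations
  have c1 : ∀ z, D.T i n (D.T j n' z) = D.T j n' (D.T i n z) :=
    comm hS ii in' ij in'' s_ni.symm s_n'j.symm s_nj.symm s_n'i.symm s_n'n
      (Gen.tri_a hn i3 j3) (Gen.tri_b hn' n4 i4 s_ni) (Gen.tri_b hn' n4 j4 s_nj).swap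
      (Gen.tri_a hn' i4 j4) (Gen.tri_a hn' j4 n4) (Gen.tri_a hn' n4 i4)
      (fun z h1 h2 => Gen.mmmm hn' n4 z h2 h1)
  have c2 : ∀ z, D.T i n (D.T n' o z) = D.T n' o (D.T i n z) :=
    comm hS ii in' in'' io s_ni.symm s_n'o s_n'n s_io s_no.symm
      (Gen.tri_b hn' n4 i4 s_ni) (Gen.tri_a hn i3 o3) (Gen.tri_b hn' n4 o4 s_no)
      (Gen.tri_b hn' o4 i4 s_io.symm) (Gen.tri_b hn' o4 n4 s_no.symm).swap
      (Gen.tri_b hn o3 i3 s_io.symm).swap
      (fun z h1 h2 => Gen.mmmm hn o3 z h1 h2)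
  have c3 : ∀ z, D.T j n' (D.T n o z) = D.T n o (D.T j n' z) :=
    comm hS ij in'' in' io s_n'j.symm s_no s_n'n.symm s_jo s_n'o.symm
      (Gen.tri_a hn' j4 n4) (Gen.tri_a hn' j4 o4) (Gen.tri_a hn' o4 n4)
      (Gen.tri_b hn o3 j3 s_jo.symm) (Gen.tri_b hn' o4 n4 s_no.symm)
      (Gen.tri_b hn' o4 j4 s_jo.symm).swap
      (fun z h1 h2 => Gen.mmmm hn' o4 z h1 h2)
  have g1 : ∀ z, D.T n' o (D.T n n' z) = D.T n o z :=
    coc1 hS in' in'' io s_n'n.symm s_n'o s_no (Gen.tri_a hn' n4 o4)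
  have g2 : ∀ z, D.T n n' (D.T n' o z) = D.T n o z :=
    coc2 hS in' in'' io s_n'n.symm s_n'o s_no (Gen.tri_b hn' o4 n4 s_no.symm).swap
  have c4 : ∀ z, D.T n o (D.T n' o z) = D.T n' o (D.T n o z) := by
    intro z
    rw [← g1 (D.T n' o z), g2]
  -- combine
  rw [← f1 (D.T j o z), ← f2 z, ← c3, c4, c1, c2, f2, f1]

end Dat

end Pool.Agent.Q125.Zauner
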