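import Mathlib
import Pool.Agent.Q125.Zauner.Alg2

set_option autoImplicit false
set_option linter.unusedSectionVars false

namespace Pool.Agent.Q125.Zauner

open scoped InnerProductSpace ComplexConjugate

variable {E U ι : Type*} [NormedAddCommGroup E] [InnerProductSpace ℂ E] [FiniteDimensional ℂ E]
  [NormedAddCommGroup U] [InnerProductSpace ℂ U] [FiniteDimensional ℂ U]

/-- commuting normal operators have a common eigenbasis -/
theorem exists_eigenbasis {κ : Type*} (T T' : κ → U →ₗ[ℂ] U)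
    (hadj : ∀ i z w, ⟪T i z, w⟫_ℂ = ⟪z, T' i w⟫_ℂ)
    (h1 : ∀ i j z, T i (T j z) = T j (T i z)) (h2 : ∀ i j z, T i (T' j z) = T' j (T i z))
    (h3 : ∀ i j z, T' i (T' j z) = T' j (T' i z)) :
    ∃ (b : Module.Basis (Fin (Module.finrank ℂ U)) ℂ U) (χ : Fin (Module.finrank ℂ U) → κ → ℂ),
      ∀ k i, T i (b k) = χ k i • b k := by
  classical
  let S : κ × Bool → U →ₗ[ℂ] U := fun p =>
    if p.2 then T p.1 + T' p.1 else Complex.I • (T p.1 - T' p.1)
  have hadj' : ∀ i z w, ⟪T' i z, w⟫_ℂ = ⟪z, T i w⟫_ℂ := by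
    intro i z w
    rw [← inner_conj_symm, ← hadj, inner_conj_symm]
  have hS : ∀ p, (S p).IsSymmetric := by
    rintro ⟨i, _ | _⟩ z w
    · simp only [S, Bool.false_eq_true, if_false, LinearMap.smul_apply, LinearMap.sub_apply,
        inner_smul_left, inner_smul_right, inner_sub_left, inner_sub_right, hadj, hadj',
        Complex.conj_I]
      ring
    · simp only [S, if_true, LinearMap.add_apply, inner_add_left, inner_add_right, hadj, hadj']
      ring
  have hC : ∀ p q, Commute (S p) (S q) := by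
    rintro ⟨i, _ | _⟩ ⟨j, _ | _⟩ <;>
    · apply LinearMap.ext
      intro z
      simp only [S, Bool.false_eq_true, if_false, if_true, Module.End.mul_apply,
        LinearMap.smul_apply, LinearMap.sub_apply, LinearMap.add_apply, map_add, map_sub, map_smul,
        h1 i j, h2 i j, h3 i j, ← h2 j i]
      module
  have htop := LinearMap.IsSymmetric.iSup_iInf_eq_top_of_commute hS (fun p q _ => hC p q)
  set s : Set U := {v | ∃ χ : κ → ℂ, ∀ i, T i v = χ i • v} with hs
  have hspan : ⊤ ≤ Submodule.span ℂ s := by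
    rw [← htop, iSup_le_iff]
    intro χ v hv
    apply Submodule.subset_span
    rw [Submodule.mem_iInf] at hv
    refine ⟨fun i => (1 / 2 : ℂ) * (χ (i, true) - Complex.I * χ (i, false)), fun i => ?_⟩
    have e1 := Module.End.mem_eigenspace_iff.mp (hv (i, true))
    have e2 := Module.End.mem_eigenspace_iff.mp (hv (i, false))
    simp only [S, if_true, LinearMap.add_apply] at e1
    simp only [S, Bool.false_eq_true, if_false, LinearMap.smul_apply, LinearMap.sub_apply] at e2
    rw [mul_smul, sub_smul, mul_smul, ← e1, ← e2, smul_smul, Complex.I_mul_I]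
    module
  let b0 := Module.Basis.ofSpan hspan
  have hb0 : Set.range b0 ⊆ s := Module.Basis.ofSpan_subset hspan
  have : Fintype ((linearIndepOn_empty ℂ id).extend (Set.empty_subset s)) :=
    FiniteDimensional.fintypeBasisIndex b0
  have hcard : Fintype.card ((linearIndepOn_empty ℂ id).extend (Set.empty_subset s)) =
      Module.finrank ℂ U := (Module.finrank_eq_card_basis b0).symm
  let e := (Fintype.equivFinOfCardEq hcard)
  have hb : ∀ k, (b0.reindex e) k ∈ s := fun k => by
    rw [Module.Basis.reindex_apply]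
    exact hb0 ⟨_, rfl⟩
  choose χ hχ using hb
  exact ⟨b0.reindex e, χ, hχ⟩

namespace Dat

variable {D : Dat E U ι}

theorem IsT.ext_dom' {V : Type*} [AddCommGroup V] [Module ℂ V] {i m : ι} {T : U →ₗ[ℂ] U}
    {F G : U →ₗ[ℂ] V} (h : D.IsT i m T)
    (h1 : ∀ u, F (D.b u (D.x i)) = G (D.b u (D.x i)))
    (h2 : ∀ v, F (D.b (D.x m) v) = G (D.b (D.x m) v)) (z : U) : F z = G z := by
  have hk : LinearMap.ker (F - G) = ⊤ := by
    rw [← Submodule.orthogonal_eq_bot_iff, Submodule.eq_bot_iff]
    intro z hz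
    rw [Submodule.mem_orthogonal] at hz
    apply h.sep
    · intro u
      apply hz
      rw [LinearMap.mem_ker, LinearMap.sub_apply, h1, sub_self]
    · intro v
      apply hz
      rw [LinearMap.mem_ker, LinearMap.sub_apply, h2, sub_self]
  have hz : z ∈ LinearMap.ker (F - G) := by rw [hk]; trivial
  rw [LinearMap.mem_ker, LinearMap.sub_apply, sub_eq_zero] at hz
  exact hz

/-- a linear functional which vanishes on all `b u v` is zero -/
theorem func_zero {F : U →ₗ[ℂ] ℂ} (h : ∀ u v, F (D.b u v) = 0) (z : U) : F z = 0 := by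
  have hk : LinearMap.ker F = ⊤ := by
    rw [← Submodule.orthogonal_eq_bot_iff, Submodule.eq_bot_iff]
    intro z hz
    rw [Submodule.mem_orthogonal] at hz
    exact D.nondeg z fun u v => hz _ (LinearMap.mem_ker.mpr (h u v))
  have hz : z ∈ LinearMap.ker F := by rw [hk]; trivial
  exact LinearMap.mem_ker.mp hz

/-- sesquilinear extension: if `F (b u v) = c * f u * conj (f v)` for `u, v` among a spanning set
then everywhere -/
theorem Spans.sesq {S : Set ι} (hS : D.Spans S) (F : U →ₗ[ℂ] ℂ) (f : E →ₗ[ℂ] ℂ) (c : ℂ)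
    (h : ∀ i ∈ S, ∀ j ∈ S, F (D.b (D.x i) (D.x j)) = c * (f (D.x i) * conj (f (D.x j)))) (u v : E) :
    F (D.b u v) = c * (f u * conj (f v)) := by
  have h0l : ∀ v, D.b (0 : E) v = 0 := fun v => by
    have := D.smul_left 0 0 v
    simpa using this
  have h0r : ∀ v, D.b v (0 : E) = 0 := fun v => by
    have := D.smul_right 0 v 0
    simpa using this
  have step : ∀ i ∈ S, ∀ v, F (D.b (D.x i) v) = c * (f (D.x i) * conj (f v)) := by
    intro i hi v
    have hv : v ∈ Submodule.span ℂ (D.x '' S) := by rw [hS]; trivial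
    induction hv using Submodule.span_induction with
    | mem u hu =>
      obtain ⟨q, hq, rfl⟩ := hu
      exact h i hi q hq
    | zero => rw [h0r, map_zero, map_zero, map_zero]; ring
    | add a b _ _ ha hb => rw [D.add_right, map_add, map_add, map_add, ha, hb]; ring
    | smul c' a _ ha =>
      rw [D.smul_right, map_smul, map_smul, ha, smul_eq_mul, smul_eq_mul, map_mul]; ring
  have hu : u ∈ Submodule.span ℂ (D.x '' S) := by rw [hS]; trivial
  induction hu using Submodule.span_induction with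
  | mem u hu =>
    obtain ⟨q, hq, rfl⟩ := hu
    exact step q hq v
  | zero => rw [h0l, map_zero, map_zero]; ring
  | add a b _ _ ha hb => rw [D.add_left, map_add, map_add, ha, hb]; ring
  | smul c' a _ ha => rw [D.smul_left, map_smul, map_smul, ha, smul_eq_mul, smul_eq_mul]; ring

/-- **The structure theorem.** -/
theorem structure_thm [Nontrivial E] [DecidableEq ι]
    (H : ∀ A : Finset ι, A.card ≤ 5 → D.Spans {q | D.Gen q (D.TT A)}) (o : ι) :
    ∃ y : Fin (Module.finrank ℂ U) → E,
      (∀ s t u v, ⟪D.b s t, D.b u v⟫_ℂ =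
        ∑ k, (⟪s, y k⟫_ℂ * ⟪y k, t⟫_ℂ) * (⟪v, y k⟫_ℂ * ⟪y k, u⟫_ℂ)) ∧
      ∀ (w : E) (W : U), (∀ u v, ⟪W, D.b u v⟫_ℂ = ⟪w, u⟫_ℂ * ⟪v, w⟫_ℂ) → w ≠ 0 →
        (∀ i, ⟪D.x i, w⟫_ℂ * ⟪w, D.x i⟫_ℂ = ⟪D.x o, w⟫_ℂ * ⟪w, D.x o⟫_ℂ) → ⟪w, D.x o⟫_ℂ ≠ 0 →
        ∃ (k : Fin (Module.finrank ℂ U)) (c : ℂ), w = c • y k := by
  set S : Set ι := {q | D.Gen q (D.TT {o})} with hS0
  have hS : D.Spans S := H {o} (by simp)
  have io : D.In o (D.TT {o}) := in_TT (by simp)
  have hT : ∀ i : S, D.IsT i o (D.T i o) := fun i => isT (Gen.sep i.2 io)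
  have hT' : ∀ i : S, D.IsT o i (D.T o i) := fun i => isT (Gen.sep i.2 io).symm
  have hTT : ∀ i j : S, ∀ z, D.T i o (D.T j o z) = D.T j o (D.T i o z) :=
    fun i j z => comm_base H i.2 j.2 z
  have inv1 : ∀ i : S, ∀ z, D.T o i (D.T i o z) = z := fun i z => (hT i).inv (hT' i) z
  have inv2 : ∀ i : S, ∀ z, D.T i o (D.T o i z) = z := fun i z => (hT' i).inv (hT i) z
  have hTT' : ∀ i j : S, ∀ z, D.T i o (D.T o j z) = D.T o j (D.T i o z) := by
    intro i j z
    conv_lhs => rw [← inv1 j (D.T i o (D.T o j z)), hTT j i, inv2]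
  have hT'T' : ∀ i j : S, ∀ z, D.T o i (D.T o j z) = D.T o j (D.T o i z) := by
    intro i j z
    conv_lhs => rw [← inv1 j (D.T o i (D.T o j z)), hTT' j i, inv2]
  obtain ⟨b, χ, hχ⟩ := exists_eigenbasis (fun i : S => D.T i o) (fun i : S => D.T o i)
    (fun i z w => (hT i).adj (hT' i) z w) hTT hTT' hT'T'
  -- unimodularity
  have hbb : ∀ k, ⟪b k, b k⟫_ℂ ≠ 0 := fun k => inner_self_ne_zero.mpr (b.ne_zero k)
  have hχ1 : ∀ k i, conj (χ k i) * χ k i = 1 := by
    intro k i
    have h := (hT i).iso (b k) (b k)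
    rw [hχ k i, inner_smul_left, inner_smul_right, ← mul_assoc] at h
    exact mul_right_cancel₀ (hbb k) (by rw [h, one_mul])
  have hχ' : ∀ k (i : S), D.T o i (b k) = conj (χ k i) • b k := by
    intro k i
    have h := inv1 i (b k)
    rw [hχ k i, map_smul] at h
    calc D.T o i (b k) = (conj (χ k i) * χ k i) • D.T o i (b k) := by rw [hχ1, one_smul]
      _ = conj (χ k i) • (χ k i • D.T o i (b k)) := by rw [mul_smul]
      _ = _ := by rw [h]
  set ev := D.b (D.x o) (D.x o) with hev
  set c : Fin (Module.finrank ℂ U) → ℂ := fun k => b.repr ev k with hc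
  have hbx : ∀ i j : S, D.b (D.x i) (D.x j) = D.T o j (D.T i o ev) := by
    intro i j
    rw [hev, (hT i).right, (hT' j).left]
  have hreprT : ∀ (i : S) z k, b.repr (D.T i o z) k = χ k i * b.repr z k := by
    intro i z k
    have h : (b.coord k) ∘ₗ (D.T i o) = χ k i • (b.coord k) := by
      apply b.ext
      intro l
      rw [LinearMap.comp_apply, hχ l i, map_smul, LinearMap.smul_apply, Module.Basis.coord_apply,
        Module.Basis.repr_self, smul_eq_mul, smul_eq_mul]
      by_cases hkl : l = k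
      · rw [hkl]
      · rw [Finsupp.single_eq_of_ne' hkl, mul_zero, mul_zero]
    have := congrArg (fun f : U →ₗ[ℂ] ℂ => f z) h
    simpa using this
  have hreprT' : ∀ (i : S) z k, b.repr (D.T o i z) k = conj (χ k i) * b.repr z k := by
    intro i z k
    have h : (b.coord k) ∘ₗ (D.T o i) = conj (χ k i) • (b.coord k) := by
      apply b.ext
      intro l
      rw [LinearMap.comp_apply, hχ' l i, map_smul, LinearMap.smul_apply, Module.Basis.coord_apply,
        Module.Basis.repr_self, smul_eq_mul, smul_eq_mul]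
      by_cases hkl : l = k
      · rw [hkl]
      · rw [Finsupp.single_eq_of_ne' hkl, mul_zero, mul_zero]
    have := congrArg (fun f : U →ₗ[ℂ] ℂ => f z) h
    simpa using this
  -- the functional `λ_k`
  have hlam0 : ∀ k, ∃ f : E →ₗ[ℂ] ℂ, ∀ u, b.repr (D.b u (D.x o)) k = f u := fun k =>
    ⟨(b.coord k) ∘ₗ (D.bl (D.x o)), fun u => rfl⟩
  choose f hf using hlam0
  have hfx : ∀ k (i : S), f k (D.x i) = c k * χ k i := by
    intro k i
    rw [← hf, ← (hT i).right, hreprT, mul_comm]
  have hbij : ∀ k (i j : S), b.repr (D.b (D.x i) (D.x j)) k = c k * (χ k i * conj (χ k j)) := by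
    intro k i j
    rw [hbx, hreprT', hreprT]
    show conj (χ k j) * (χ k i * c k) = _
    ring
  have hck : ∀ k, c k ≠ 0 := by
    intro k hk
    have h1 : ∀ u v, (b.coord k) (D.b u v) = 0 := by
      intro u v
      have := hS.sesq (b.coord k) (f k) 0 (by
        intro i hi j hj
        rw [zero_mul]
        have h := hbij k ⟨i, hi⟩ ⟨j, hj⟩
        rw [hk, zero_mul] at h
        exact h) u v
      rw [this, zero_mul]
    have h2 := func_zero h1 (b k)
    rw [Module.Basis.coord_apply, Module.Basis.repr_self, Finsupp.single_eq_same] at h2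
    exact one_ne_zero h2
  -- the normalised functional
  set g0 : Fin (Module.finrank ℂ U) → E →ₗ[ℂ] ℂ := fun k => (c k)⁻¹ • f k with hg0
  have hg0x : ∀ k (i : S), g0 k (D.x i) = χ k i := by
    intro k i
    rw [hg0]
    show (c k)⁻¹ • f k (D.x i) = _
    rw [hfx, smul_eq_mul, ← mul_assoc, inv_mul_cancel₀ (hck k), one_mul]
  have hrep : ∀ k u v, b.repr (D.b u v) k = c k * (g0 k u * conj (g0 k v)) := by
    intro k u v
    exact hS.sesq (b.coord k) (g0 k) (c k) (by
      intro i hi j hj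
      have h1 := hg0x k ⟨i, hi⟩
      have h2 := hg0x k ⟨j, hj⟩
      simp only at h1 h2
      rw [h1, h2]
      exact hbij k ⟨i, hi⟩ ⟨j, hj⟩) u v
  -- the characters are distinct
  have hdist : ∀ k l, k ≠ l → ∃ i : S, χ k i ≠ χ l i := by
    intro k l hkl
    by_contra hcon
    push Not at hcon
    have hg : ∀ u, g0 k u = g0 l u := by
      intro u
      have hu : u ∈ Submodule.span ℂ (D.x '' S) := by rw [hS]; trivial
      induction hu using Submodule.span_induction with
      | mem u hu =>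
        obtain ⟨q, hq, rfl⟩ := hu
        have h1 := hg0x k ⟨q, hq⟩
        have h2 := hg0x l ⟨q, hq⟩
        simp only at h1 h2
        rw [h1, h2, hcon]
      | zero => rw [map_zero, map_zero]
      | add a b _ _ ha hb => rw [map_add, map_add, ha, hb]
      | smul c a _ ha => rw [map_smul, map_smul, ha]
    have h1 : ∀ u v, (c l • b.coord k - c k • b.coord l) (D.b u v) = 0 := by
      intro u v
      rw [LinearMap.sub_apply, LinearMap.smul_apply, LinearMap.smul_apply,
        Module.Basis.coord_apply, Module.Basis.coord_apply, hrep, hrep, hg, hg, smul_eq_mul,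
        smul_eq_mul]
      ring
    have h2 := func_zero h1 (b k)
    rw [LinearMap.sub_apply, LinearMap.smul_apply, LinearMap.smul_apply,
        Module.Basis.coord_apply, Module.Basis.coord_apply, Module.Basis.repr_self,
        Finsupp.single_eq_same, Finsupp.single_eq_of_ne' hkl, smul_eq_mul, smul_eq_mul, mul_one,
        mul_zero, sub_zero] at h2
    exact hck l h2
  have horth : ∀ k l, k ≠ l → ⟪b k, b l⟫_ℂ = 0 := by
    intro k l hkl
    obtain ⟨i, hi⟩ := hdist k l hkl
    have h := (hT i).iso (b k) (b l)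
    rw [hχ k i, hχ l i, inner_smul_left, inner_smul_right, ← mul_assoc] at h
    by_contra hne
    have h1 : conj (χ k i) * χ l i = 1 := mul_right_cancel₀ hne (by rw [h, one_mul])
    apply hi
    calc χ k i = χ k i * (conj (χ k i) * χ l i) := by rw [h1, mul_one]
      _ = (conj (χ k i) * χ k i) * χ l i := by ring
      _ = χ l i := by rw [hχ1, one_mul]
  -- Riesz vectors
  have hr : ∀ k, ∃ g : E, ∀ u, g0 k u = ⟪g, u⟫_ℂ := by
    intro k
    refine ⟨(InnerProductSpace.toDual ℂ E).symm (LinearMap.toContinuousLinearMap (g0 k)), fun u => ?_⟩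
    rw [InnerProductSpace.toDual_symm_apply]
    rfl
  choose g hg using hr
  have hnn : ∀ k, ∃ r : ℝ, 0 < r ∧ ⟪b k, b k⟫_ℂ = (r : ℂ) := by
    intro k
    refine ⟨‖b k‖ ^ 2, by have := b.ne_zero k; positivity, ?_⟩
    rw [inner_self_eq_norm_sq_to_K]
    simp
  choose r hr0 hr using hnn
  set κ : Fin (Module.finrank ℂ U) → ℝ := fun k => Complex.normSq (c k) * r k with hκ
  have hκ0 : ∀ k, 0 < κ k := fun k => mul_pos (Complex.normSq_pos.mpr (hck k)) (hr0 k)
  have hmain : ∀ s t u v, ⟪D.b s t, D.b u v⟫_ℂ = ∑ k, (κ k : ℂ) *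
      ((⟪s, g k⟫_ℂ * ⟪g k, t⟫_ℂ) * (⟪v, g k⟫_ℂ * ⟪g k, u⟫_ℂ)) := by
    intro s t u v
    have e1 : D.b s t = ∑ k, b.repr (D.b s t) k • b k := (b.sum_repr _).symm
    have e2 : D.b u v = ∑ k, b.repr (D.b u v) k • b k := (b.sum_repr _).symm
    rw [e1, e2, sum_inner]
    refine Finset.sum_congr rfl fun k _ => ?_
    rw [inner_sum, Finset.sum_eq_single k]
    · rw [inner_smul_left, inner_smul_right, hr k, hrep, hrep, hg, hg, hg, hg]
      rw [hκ]
      push_cast
      simp only [map_mul, inner_conj_symm, Complex.normSq_eq_conj_mul_self]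
      ring
    · intro l _ hl
      rw [inner_smul_left, inner_smul_right, horth k l (Ne.symm hl)]
      ring
    · intro h
      exact absurd (Finset.mem_univ _) h
  refine ⟨fun k => ((Real.sqrt (Real.sqrt (κ k)) : ℝ) : ℂ) • g k, ?_, ?_⟩
  · intro s t u v
    rw [hmain]
    refine Finset.sum_congr rfl fun k _ => ?_
    simp only [inner_smul_left, inner_smul_right, Complex.conj_ofReal]
    have h1 : ((Real.sqrt (Real.sqrt (κ k)) : ℝ) : ℂ) ^ 4 = (κ k : ℂ) := by
      rw [← Complex.ofReal_pow]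
      congr 1
      have h2 : Real.sqrt (Real.sqrt (κ k)) ^ 2 = Real.sqrt (κ k) :=
        Real.sq_sqrt (Real.sqrt_nonneg _)
      have h3 : Real.sqrt (κ k) ^ 2 = κ k := Real.sq_sqrt (hκ0 k).le
      calc _ = (Real.sqrt (Real.sqrt (κ k)) ^ 2) ^ 2 := by ring
        _ = _ := by rw [h2, h3]
    rw [← h1]
    ring
  · intro w W hW hw0 hwx hwo
    -- `W` is a joint eigenvector
    have hconj : ∀ a b : E, ⟪a, b⟫_ℂ = conj ⟪b, a⟫_ℂ := fun a b => (inner_conj_symm _ _).symm
    have heig : ∀ (i : S) z, ⟪W, D.T i o z⟫_ℂ = (⟪w, D.x i⟫_ℂ / ⟪w, D.x o⟫_ℂ) * ⟪W, z⟫_ℂ := by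
      intro i z
      have := (hT i).ext_dom' (F := (innerₛₗ ℂ W) ∘ₗ D.T i o)
        (G := (⟪w, D.x i⟫_ℂ / ⟪w, D.x o⟫_ℂ) • (innerₛₗ ℂ W)) (by
          intro u
          rw [LinearMap.comp_apply, LinearMap.smul_apply, innerₛₗ_apply_apply, innerₛₗ_apply_apply,
            (hT i).left, hW, hW, smul_eq_mul, div_mul_eq_mul_div, eq_div_iff hwo]
          have h := hwx i
          linear_combination (-⟪w, u⟫_ℂ) * h) (by
          intro v
          rw [LinearMap.comp_apply, LinearMap.smul_apply, innerₛₗ_apply_apply, innerₛₗ_apply_apply,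
            (hT i).right, hW, hW, smul_eq_mul]
          field_simp) z
      simpa using this
    obtain ⟨k, hk⟩ : ∃ k, ⟪W, b k⟫_ℂ ≠ 0 := by
      by_contra hcon
      push Not at hcon
      have h1 : ∀ z, ⟪W, z⟫_ℂ = 0 := by
        intro z
        rw [← b.sum_repr z, inner_sum]
        refine Finset.sum_eq_zero fun k _ => ?_
        rw [inner_smul_right, hcon, mul_zero]
      have h2 := hW w w
      rw [h1] at h2
      have h3 := mul_self_eq_zero.mp h2.symm
      exact hw0 (inner_self_eq_zero.mp h3)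
    have hχρ : ∀ i : S, χ k i = ⟪w, D.x i⟫_ℂ / ⟪w, D.x o⟫_ℂ := by
      intro i
      have h := heig i (b k)
      rw [hχ k i, inner_smul_right] at h
      exact mul_right_cancel₀ hk h
    have hgw : ∀ u, ⟪g k, u⟫_ℂ = ⟪w, u⟫_ℂ / ⟪w, D.x o⟫_ℂ := by
      intro u
      rw [← hg]
      have hu : u ∈ Submodule.span ℂ (D.x '' S) := by rw [hS]; trivial
      induction hu using Submodule.span_induction with
      | mem u hu =>
        obtain ⟨q, hq, rfl⟩ := hu
        have h1 := hg0x k ⟨q, hq⟩
        simp only at h1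
        rw [h1, hχρ]
      | zero => rw [map_zero, inner_zero_right, zero_div]
      | add a b _ _ ha hb => rw [map_add, inner_add_right, ha, hb, add_div]
      | smul c a _ ha => rw [map_smul, inner_smul_right, ha, smul_eq_mul, mul_div_assoc]
    have hwg : w = conj ⟪w, D.x o⟫_ℂ • g k := by
      refine ext_inner_right ℂ fun u => ?_
      rw [inner_smul_left, Complex.conj_conj, hgw]
      field_simp
    have hs0 : ((Real.sqrt (Real.sqrt (κ k)) : ℝ) : ℂ) ≠ 0 := by
      have : 0 < Real.sqrt (Real.sqrt (κ k)) := Real.sqrt_pos.mpr (Real.sqrt_pos.mpr (hκ0 k))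
      exact_mod_cast this.ne'
    refine ⟨k, conj ⟪w, D.x o⟫_ℂ * ((Real.sqrt (Real.sqrt (κ k)) : ℝ) : ℂ)⁻¹, ?_⟩
    rw [smul_smul, mul_assoc, inv_mul_cancel₀ hs0, mul_one]
    exact hwg

end Dat

end Pool.Agent.Q125.Zauner
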