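import Mathlib
import Pool.Agent.H103R3.Completion

set_option autoImplicit false
set_option linter.unusedSectionVars false

namespace Pool.Agent.Q125.Zauner

open scoped InnerProductSpace ComplexConjugate
open Pool.Agent.H103R3 (rk rk_apply trace_rk Bisym)

abbrev EE (d : ℕ) := EuclideanSpace ℂ (Fin d)

/-- A partial system together with the operators `A_j` of the complement. -/
structure Ctx (d m N : ℕ) where
  A : Fin m → Module.End ℂ (EE d)
  x : Fin N → EE d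
  hd : 0 < d
  symm : ∀ j, (A j).IsSymmetric
  K : ∀ u v w z : EE d, ∑ j, ⟪u, A j v⟫_ℂ * ⟪w, A j z⟫_ℂ +
          ∑ i, (⟪u, x i⟫_ℂ * ⟪x i, v⟫_ℂ) * (⟪w, x i⟫_ℂ * ⟪x i, z⟫_ℂ) =
        ((d : ℂ) / (d + 1)) * (⟪u, z⟫_ℂ * ⟪w, v⟫_ℂ + ⟪u, v⟫_ℂ * ⟪w, z⟫_ℂ)
  h1 : ∀ i, ‖x i‖ = 1
  h2 : ∀ i j, i ≠ j → ‖⟪x i, x j⟫_ℂ‖ = 1 / Real.sqrt ((d : ℝ) + 1)
  hle : m + N ≤ d ^ 2

namespace Ctx

variable {d m N : ℕ} (C : Ctx d m N)

noncomputable def tr (X : Module.End ℂ (EE d)) : ℂ := LinearMap.trace ℂ (EE d) X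

theorem tr_add (X Y : Module.End ℂ (EE d)) : tr (X + Y) = tr X + tr Y := map_add _ _ _
theorem tr_sub (X Y : Module.End ℂ (EE d)) : tr (X - Y) = tr X - tr Y := map_sub _ _ _
theorem tr_smul (c : ℂ) (X : Module.End ℂ (EE d)) : tr (c • X) = c * tr X := map_smul _ _ _
theorem tr_sum {κ : Type*} (s : Finset κ) (f : κ → Module.End ℂ (EE d)) :
    tr (∑ k ∈ s, f k) = ∑ k ∈ s, tr (f k) := map_sum _ _ _
theorem tr_comm (X Y : Module.End ℂ (EE d)) : tr (X * Y) = tr (Y * X) :=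
  LinearMap.trace_mul_comm ℂ X Y
theorem tr_one : tr (1 : Module.End ℂ (EE d)) = (d : ℂ) := by
  have h : tr (1 : Module.End ℂ (EE d)) = (Module.finrank ℂ (EE d) : ℂ) := LinearMap.trace_one ..
  rw [h, finrank_euclideanSpace, Fintype.card_fin]

theorem tr_eq {κ : Type*} [Fintype κ] (e : OrthonormalBasis κ ℂ (EE d))
    (X : Module.End ℂ (EE d)) : tr X = ∑ k, ⟪e k, X (e k)⟫_ℂ := LinearMap.trace_eq_sum_inner _ e

theorem sum_e {κ : Type*} [Fintype κ] (e : OrthonormalBasis κ ℂ (EE d))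
    (X : Module.End ℂ (EE d)) (w z : EE d) :
    ∑ k, ⟪e k, z⟫_ℂ * ⟪w, X (e k)⟫_ℂ = ⟪w, X z⟫_ℂ := by
  conv_rhs => rw [← e.sum_repr' z]
  rw [map_sum, inner_sum]
  refine Finset.sum_congr rfl fun k _ => ?_
  rw [map_smul, inner_smul_right]

theorem tr_mul_rk (X : Module.End ℂ (EE d)) (u w : EE d) :
    tr (X * rk u w) = ⟪w, X u⟫_ℂ := by
  have h : X * rk u w = rk (X u) w := by
    ext y
    simp [rk_apply]
  rw [h]
  exact trace_rk _ _

theorem hxx (i : Fin N) : ⟪C.x i, C.x i⟫_ℂ = 1 := by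
  rw [inner_self_eq_norm_sq_to_K, C.h1]; simp

theorem d1 : (d : ℂ) + 1 ≠ 0 := by exact_mod_cast Nat.succ_ne_zero d

theorem gram (i j : Fin N) : ⟪C.x i, C.x j⟫_ℂ * ⟪C.x j, C.x i⟫_ℂ =
    (1 / ((d : ℂ) + 1)) + if i = j then ((d : ℂ) / (d + 1)) else 0 := by
  have := d1 (d := d)
  split_ifs with hij
  · subst hij
    rw [C.hxx]
    field_simp
    ring
  · rw [Pool.Agent.H103R3.inner_mul_inner_of (C.h2 i j hij)]
    push_cast
    ring

theorem bisym : Bisym C.A := by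
  intro a b c e
  have h1 := C.K a c b e
  have h2 := C.K a e b c
  have h3 : ∑ i, (⟪a, C.x i⟫_ℂ * ⟪C.x i, c⟫_ℂ) * (⟪b, C.x i⟫_ℂ * ⟪C.x i, e⟫_ℂ) =
      ∑ i, (⟪a, C.x i⟫_ℂ * ⟪C.x i, e⟫_ℂ) * (⟪b, C.x i⟫_ℂ * ⟪C.x i, c⟫_ℂ) :=
    Finset.sum_congr rfl fun i _ => by ring
  rw [h3] at h1
  have h4 : (⟪a, e⟫_ℂ * ⟪b, c⟫_ℂ + ⟪a, c⟫_ℂ * ⟪b, e⟫_ℂ) =
    (⟪a, c⟫_ℂ * ⟪b, e⟫_ℂ + ⟪a, e⟫_ℂ * ⟪b, c⟫_ℂ) := by ring
  rw [h4, ← h2] at h1
  exact add_right_cancel h1

theorem K_tr (X : Module.End ℂ (EE d)) (w z : EE d) :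
    ∑ j, tr (C.A j * X) * ⟪w, C.A j z⟫_ℂ +
      ∑ i, ⟪C.x i, X (C.x i)⟫_ℂ * (⟪w, C.x i⟫_ℂ * ⟪C.x i, z⟫_ℂ) =
    ((d : ℂ) / (d + 1)) * (⟪w, X z⟫_ℂ + tr X * ⟪w, z⟫_ℂ) := by
  let e := EuclideanSpace.basisFun (Fin d) ℂ
  have h : ∀ k, _ := fun k => C.K (e k) (X (e k)) w z
  have hs := Finset.sum_congr (rfl : (Finset.univ : Finset (Fin d)) = Finset.univ) fun k _ => h k
  rw [Finset.sum_add_distrib, ← Finset.mul_sum, Finset.sum_add_distrib, Finset.sum_comm,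
    sum_e e, ← Finset.sum_mul, ← tr_eq e] at hs
  rw [← hs]
  congr 1
  · refine Finset.sum_congr rfl fun j _ => ?_
    rw [tr_eq e, Finset.sum_mul]
    rfl
  · rw [Finset.sum_comm]
    refine Finset.sum_congr rfl fun i _ => ?_
    rw [← sum_e e X (C.x i) (C.x i), Finset.sum_mul]

theorem K_op (X : Module.End ℂ (EE d)) :
    ∑ j, tr (C.A j * X) • C.A j + ∑ i, ⟪C.x i, X (C.x i)⟫_ℂ • rk (C.x i) (C.x i) =
    ((d : ℂ) / (d + 1)) • (X + tr X • (1 : Module.End ℂ (EE d))) := by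
  ext1 z
  refine ext_inner_left ℂ fun w => ?_
  have h := C.K_tr X w z
  rw [LinearMap.add_apply, LinearMap.sum_apply, LinearMap.sum_apply, inner_add_right, inner_sum,
    inner_sum, LinearMap.smul_apply, inner_smul_right, LinearMap.add_apply, inner_add_right,
    LinearMap.smul_apply, inner_smul_right, Module.End.one_apply, ← h]
  congr 1
  · refine Finset.sum_congr rfl fun j _ => ?_
    rw [LinearMap.smul_apply, inner_smul_right]
  · refine Finset.sum_congr rfl fun j _ => ?_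
    rw [LinearMap.smul_apply, inner_smul_right, rk_apply, inner_smul_right]
    ring

/-- traces of the `A_j` -/
noncomputable def τ (j : Fin m) : ℂ := tr (C.A j)

/-- the operator `R = ∑ τ_j A_j = d - ∑ x_i x_i^*` -/
noncomputable def R : Module.End ℂ (EE d) := ∑ j, C.τ j • C.A j

theorem R_eq : C.R = (d : ℂ) • (1 : Module.End ℂ (EE d)) - ∑ i, rk (C.x i) (C.x i) := by
  have h := C.K_op 1
  rw [eq_sub_iff_add_eq]
  have h1 : ((d : ℂ) / (d + 1)) • ((1 : Module.End ℂ (EE d)) +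
      tr (1 : Module.End ℂ (EE d)) • (1 : Module.End ℂ (EE d))) = (d : ℂ) • (1 : Module.End ℂ (EE d)) := by
    rw [tr_one, ← one_smul ℂ (1 : Module.End ℂ (EE d)), smul_smul, ← add_smul, smul_smul]
    congr 1
    have := d1 (d := d)
    field_simp
    ring
  rw [h1] at h
  rw [← h, R]
  refine congrArg₂ (· + ·) ?_ ?_
  · refine Finset.sum_congr rfl fun j _ => ?_
    rw [mul_one]
    rfl
  · refine Finset.sum_congr rfl fun j _ => ?_
    rw [Module.End.one_apply, C.hxx, one_smul]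

theorem sum_tr (X : Module.End ℂ (EE d)) :
    ∑ i, ⟪C.x i, X (C.x i)⟫_ℂ = (d : ℂ) * tr X - tr (X * C.R) := by
  rw [R_eq, mul_sub, tr_sub, mul_smul_comm, mul_one, tr_smul, Finset.mul_sum, tr_sum]
  rw [sub_sub_cancel]
  refine Finset.sum_congr rfl fun i _ => ?_
  rw [tr_mul_rk]

theorem tr_XR (X : Module.End ℂ (EE d)) : ∑ j, tr (C.A j * X) * C.τ j = tr (X * C.R) := by
  rw [R, Finset.mul_sum, tr_sum]
  refine Finset.sum_congr rfl fun j _ => ?_
  rw [mul_smul_comm, tr_smul, tr_comm X, mul_comm]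

theorem span_top : (⊤ : Submodule ℂ (Module.End ℂ (EE d))) ≤
    Submodule.span ℂ (Set.range (Sum.elim C.A fun i => rk (C.x i) (C.x i))) := by
  intro Y _
  set X : Module.End ℂ (EE d) := (((d : ℂ) + 1) / d) • (Y - (tr Y / (d + 1)) • 1) with hX
  have hd0 : (d : ℂ) ≠ 0 := by exact_mod_cast C.hd.ne'
  have hd1 := d1 (d := d)
  have h := C.K_op X
  have htr : tr X = tr Y / d := by
    rw [hX, tr_smul, tr_sub, tr_smul, tr_one]
    field_simp
    ring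
  have h1 : ((d : ℂ) / (d + 1)) • (X + tr X • (1 : Module.End ℂ (EE d))) = Y := by
    rw [htr, hX, smul_add, smul_smul, smul_smul, smul_sub, smul_smul]
    have e1 : ((d : ℂ) / (d + 1)) * (((d : ℂ) + 1) / d) = 1 := by field_simp
    rw [e1, one_smul, one_mul, sub_add, ← sub_smul]
    have e2 : tr Y / ((d : ℂ) + 1) - (d : ℂ) / (d + 1) * (tr Y / d) = 0 := by
      field_simp
      ring
    rw [e2, zero_smul, sub_zero]
  rw [← h1, ← h]
  refine Submodule.add_mem _ (Submodule.sum_mem _ fun j _ => Submodule.smul_mem _ _ ?_)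
    (Submodule.sum_mem _ fun j _ => Submodule.smul_mem _ _ ?_)
  · exact Submodule.subset_span ⟨Sum.inl j, rfl⟩
  · exact Submodule.subset_span ⟨Sum.inr j, rfl⟩

theorem finrank_end : Module.finrank ℂ (Module.End ℂ (EE d)) = d ^ 2 := by
  rw [Module.finrank_linearMap, finrank_euclideanSpace, Fintype.card_fin, sq]

include C in
theorem card_eq : m + N = d ^ 2 := by
  refine le_antisymm C.hle ?_
  have h := finrank_range_le_card (R := ℂ) (Sum.elim C.A fun i => rk (C.x i) (C.x i))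
  have h1 : (Set.range (Sum.elim C.A fun i => rk (C.x i) (C.x i))).finrank ℂ = d ^ 2 := by
    rw [Set.finrank, top_le_iff.mp C.span_top, finrank_top, finrank_end]
  rw [h1, Fintype.card_sum, Fintype.card_fin, Fintype.card_fin] at h
  exact h

theorem indep : LinearIndependent ℂ C.A := by
  have h := linearIndependent_of_top_le_span_of_card_eq_finrank C.span_top (by
    rw [Fintype.card_sum, Fintype.card_fin, Fintype.card_fin, C.card_eq, finrank_end])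
  exact h.comp Sum.inl Sum.inl_injective

theorem eq_zero_of_tr {v : Fin m → ℂ} (h : ∀ X : Module.End ℂ (EE d),
    ∑ j, tr (C.A j * X) * v j = 0) : ∀ j, v j = 0 := by
  apply Fintype.linearIndependent_iff.mp C.indep
  ext1 z
  refine ext_inner_left ℂ fun w => ?_
  have h1 := h (rk z w)
  rw [LinearMap.zero_apply, inner_zero_right, LinearMap.sum_apply, inner_sum, ← h1]
  refine Finset.sum_congr rfl fun j _ => ?_
  rw [LinearMap.smul_apply, inner_smul_right, tr_mul_rk, mul_comm]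

/-- `⟨x_i, A_j x_i⟩ = τ_j/(d+1)` -/
theorem xAx (i : Fin N) (j : Fin m) : ⟪C.x i, C.A j (C.x i)⟫_ℂ = C.τ j / (d + 1) := by
  rw [← sub_eq_zero]
  refine C.eq_zero_of_tr (v := fun j => ⟪C.x i, C.A j (C.x i)⟫_ℂ - C.τ j / (d + 1)) ?_ j
  intro X
  have h := C.K_tr X (C.x i) (C.x i)
  rw [C.hxx, mul_one] at h
  have e1 : ∑ l, ⟪C.x l, X (C.x l)⟫_ℂ * (⟪C.x i, C.x l⟫_ℂ * ⟪C.x l, C.x i⟫_ℂ) =
      (1 / ((d : ℂ) + 1)) * ((d : ℂ) * tr X - tr (X * C.R)) +
        ((d : ℂ) / (d + 1)) * ⟪C.x i, X (C.x i)⟫_ℂ := by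
    rw [← C.sum_tr X, Finset.mul_sum]
    have : ∀ l, ⟪C.x l, X (C.x l)⟫_ℂ * (⟪C.x i, C.x l⟫_ℂ * ⟪C.x l, C.x i⟫_ℂ) =
        (1 / ((d : ℂ) + 1)) * ⟪C.x l, X (C.x l)⟫_ℂ +
          (if i = l then ((d : ℂ) / (d + 1)) * ⟪C.x l, X (C.x l)⟫_ℂ else 0) := by
      intro l
      rw [C.gram]
      split_ifs <;> ring
    rw [Finset.sum_congr rfl fun l _ => this l, Finset.sum_add_distrib, Finset.sum_ite_eq,
      if_pos (Finset.mem_univ i)]
  rw [e1] at h
  have e2 : ∑ j, tr (C.A j * X) * (⟪C.x i, C.A j (C.x i)⟫_ℂ - C.τ j / (d + 1)) =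
      ∑ j, tr (C.A j * X) * ⟪C.x i, C.A j (C.x i)⟫_ℂ - (1 / ((d : ℂ) + 1)) * tr (X * C.R) := by
    rw [← C.tr_XR X, Finset.mul_sum, ← Finset.sum_sub_distrib]
    refine Finset.sum_congr rfl fun j _ => ?_
    ring
  rw [e2]
  have hd1 := d1 (d := d)
  field_simp at h ⊢
  linear_combination h

/-- `tr (A_j A_l) = d/(d+1) δ_jl + τ_j τ_l/(d+1)` -/
theorem trAA (j l : Fin m) : tr (C.A j * C.A l) =
    (if j = l then ((d : ℂ) / (d + 1)) else 0) + C.τ j * C.τ l / (d + 1) := by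
  rw [← sub_eq_zero]
  refine C.eq_zero_of_tr (v := fun j => tr (C.A j * C.A l) -
    ((if j = l then ((d : ℂ) / (d + 1)) else 0) + C.τ j * C.τ l / (d + 1))) ?_ j
  intro X
  have h := congrArg (fun Y => tr (Y * C.A l)) (C.K_op X)
  beta_reduce at h
  rw [add_mul, tr_add, Finset.sum_mul, Finset.sum_mul, tr_sum, tr_sum, smul_mul_assoc, tr_smul,
    add_mul, tr_add, smul_mul_assoc, one_mul, tr_smul] at h
  have e1 : ∑ i, tr ((⟪C.x i, X (C.x i)⟫_ℂ • rk (C.x i) (C.x i)) * C.A l) =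
      (C.τ l / (d + 1)) * ((d : ℂ) * tr X - tr (X * C.R)) := by
    rw [← C.sum_tr X, Finset.mul_sum]
    refine Finset.sum_congr rfl fun i _ => ?_
    rw [smul_mul_assoc, tr_smul, tr_comm, tr_mul_rk, C.xAx]
    ring
  rw [e1] at h
  have e2 : ∑ j, tr (C.A j * X) * (tr (C.A j * C.A l) -
      ((if j = l then ((d : ℂ) / (d + 1)) else 0) + C.τ j * C.τ l / (d + 1))) =
      ∑ j, tr ((tr (C.A j * X) • C.A j) * C.A l) - ((d : ℂ) / (d + 1)) * tr (C.A l * X) -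
        (C.τ l / (d + 1)) * tr (X * C.R) := by
    rw [← C.tr_XR X, Finset.mul_sum]
    have e3 : ((d : ℂ) / (d + 1)) * tr (C.A l * X) =
        ∑ j, (if j = l then ((d : ℂ) / (d + 1)) * tr (C.A j * X) else 0) := by
      rw [Finset.sum_ite_eq', if_pos (Finset.mem_univ l)]
    rw [e3, ← Finset.sum_sub_distrib, ← Finset.sum_sub_distrib]
    refine Finset.sum_congr rfl fun j _ => ?_
    rw [smul_mul_assoc, tr_smul]
    split_ifs <;> ring
  rw [e2]
  have hd1 := d1 (d := d)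
  rw [tr_comm (C.A l) X]
  change _ = (d : ℂ) / (d + 1) * (tr (X * C.A l) + tr X * C.τ l) at h
  field_simp at h ⊢
  linear_combination h

end Ctx

end Pool.Agent.Q125.Zauner
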