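import Mathlib
import Pool.Agent.Q125.Zauner.Quant1

set_option autoImplicit false
set_option linter.unusedSectionVars false

namespace Pool.Agent.Q125.Zauner

open scoped InnerProductSpace ComplexConjugate
open Pool.Agent.H103R3 (rk rk_apply trace_rk Bisym)

namespace Ctx

variable {d m N : ℕ} (C : Ctx d m N)

theorem conj_tr {X X' : Module.End ℂ (EE d)} (h : ∀ u v, ⟪X u, v⟫_ℂ = ⟪u, X' v⟫_ℂ) :
    conj (tr X) = tr X' := by
  let e := EuclideanSpace.basisFun (Fin d) ℂ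
  rw [tr_eq e, tr_eq e, map_sum]
  refine Finset.sum_congr rfl fun k _ => ?_
  rw [inner_conj_symm, h]

theorem conj_τ (j : Fin m) : conj (C.τ j) = C.τ j := conj_tr (C.symm j)

theorem tr_R : tr C.R = (m : ℂ) := by
  rw [R_eq, tr_sub, tr_smul, tr_one, tr_sum]
  have h : ∀ i, tr (rk (C.x i) (C.x i)) = 1 := fun i => by
    have := trace_rk (C.x i) (C.x i)
    rw [C.hxx] at this
    exact this
  rw [Finset.sum_congr rfl fun i _ => h i]
  simp only [Finset.sum_const, Finset.card_univ, Fintype.card_fin, nsmul_eq_mul, mul_one]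
  have h2 : ((m : ℂ) + N) = (d : ℂ) ^ 2 := by exact_mod_cast C.card_eq
  linear_combination -h2

theorem sum_ττ : ∑ j, C.τ j * C.τ j = (m : ℂ) := by
  rw [← C.tr_R, R, tr_sum]
  refine Finset.sum_congr rfl fun j _ => ?_
  rw [tr_smul]
  rfl

/-- `r* = (d+m)/(d+1)` -/
noncomputable def rs (d m : ℕ) : ℂ := ((d : ℂ) + m) / (d + 1)

theorem tr_RA (l : Fin m) : tr (C.R * C.A l) = rs d m * C.τ l := by
  rw [R, Finset.sum_mul, tr_sum]
  have h : ∀ j, tr ((C.τ j • C.A j) * C.A l) = (if j = l then ((d : ℂ) / (d + 1)) * C.τ j else 0) +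
      (C.τ l / (d + 1)) * (C.τ j * C.τ j) := by
    intro j
    rw [smul_mul_assoc, tr_smul, C.trAA]
    split_ifs <;> ring
  rw [Finset.sum_congr rfl fun j _ => h j, Finset.sum_add_distrib, Finset.sum_ite_eq',
    if_pos (Finset.mem_univ l), ← Finset.mul_sum, C.sum_ττ, rs]
  ring

theorem tr_RR : tr (C.R * C.R) = rs d m * m := by
  have h : C.R * C.R = ∑ j, C.τ j • (C.R * C.A j) := by
    conv_lhs => rw [R]
    conv_lhs => rw [Finset.mul_sum]
    refine Finset.sum_congr rfl fun j _ => ?_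
    rw [mul_smul_comm]
    rfl
  rw [h, tr_sum, ← C.sum_ττ, Finset.mul_sum]
  refine Finset.sum_congr rfl fun j _ => ?_
  rw [tr_smul, C.tr_RA]
  ring

/-- `D X = ∑ tr (A_j X) A_j = ∑ A_j X A_j` -/
noncomputable def D (X : Module.End ℂ (EE d)) : Module.End ℂ (EE d) := ∑ j, tr (C.A j * X) • C.A j

theorem T2 (X : Module.End ℂ (EE d)) : ∑ j, C.A j * X * C.A j = C.D X := by
  let e := EuclideanSpace.basisFun (Fin d) ℂ
  ext1 v
  refine ext_inner_left ℂ fun u => ?_
  rw [D, LinearMap.sum_apply, LinearMap.sum_apply, inner_sum, inner_sum]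
  have h1 : ∀ j, ⟪u, (C.A j * X * C.A j) v⟫_ℂ =
      ∑ k, ⟪u, C.A j (X (e k))⟫_ℂ * ⟪e k, C.A j v⟫_ℂ := by
    intro j
    have := sum_e e (C.A j * X) u (C.A j v)
    rw [Module.End.mul_apply] at this
    rw [Module.End.mul_apply, Module.End.mul_apply, ← this]
    refine Finset.sum_congr rfl fun k _ => ?_
    rw [Module.End.mul_apply, mul_comm]
  rw [Finset.sum_congr rfl fun j _ => h1 j, Finset.sum_comm]
  have h2 : ∀ k, ∑ j, ⟪u, C.A j (X (e k))⟫_ℂ * ⟪e k, C.A j v⟫_ℂ =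
      ∑ j, ⟪u, C.A j v⟫_ℂ * ⟪e k, C.A j (X (e k))⟫_ℂ := fun k => C.bisym _ _ _ _
  rw [Finset.sum_congr rfl fun k _ => h2 k, Finset.sum_comm]
  refine Finset.sum_congr rfl fun j _ => ?_
  rw [← Finset.mul_sum, LinearMap.smul_apply, inner_smul_right, tr_eq e, mul_comm]
  rfl

theorem D_A (l : Fin m) : C.D (C.A l) = ((d : ℂ) / (d + 1)) • C.A l + (C.τ l / (d + 1)) • C.R := by
  rw [D]
  have h : ∀ j, tr (C.A j * C.A l) • C.A j =
      (if j = l then ((d : ℂ) / (d + 1)) • C.A j else 0) + (C.τ l / (d + 1)) • (C.τ j • C.A j) := by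
    intro j
    rw [C.trAA, add_smul]
    congr 1
    · split_ifs <;> simp
    · rw [smul_smul]
      congr 1
      ring
  rw [Finset.sum_congr rfl fun j _ => h j, Finset.sum_add_distrib, Finset.sum_ite_eq',
    if_pos (Finset.mem_univ l), ← Finset.smul_sum]
  rfl

theorem D_R : C.D C.R = rs d m • C.R := by
  rw [D]
  conv_rhs => rw [R, Finset.smul_sum]
  refine Finset.sum_congr rfl fun j _ => ?_
  rw [tr_comm, C.tr_RA, smul_smul]

theorem sum_AA : ∑ j, C.A j * C.A j = C.R := by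
  have h := C.T2 1
  simp only [mul_one] at h
  rw [h, D, R]
  refine Finset.sum_congr rfl fun j _ => ?_
  rw [mul_one]
  rfl

theorem R_symm : C.R.IsSymmetric := by
  intro u v
  rw [R, LinearMap.sum_apply, LinearMap.sum_apply, sum_inner, inner_sum]
  refine Finset.sum_congr rfl fun j _ => ?_
  rw [LinearMap.smul_apply, LinearMap.smul_apply, inner_smul_left, inner_smul_right, C.conj_τ,
    C.symm j u v]

theorem R_nonneg (u : EE d) : 0 ≤ (⟪u, C.R u⟫_ℂ).re := by
  rw [← C.sum_AA, LinearMap.sum_apply, inner_sum, Complex.re_sum]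
  refine Finset.sum_nonneg fun j _ => ?_
  rw [Module.End.mul_apply, ← C.symm j]
  exact @inner_self_nonneg ℂ (EE d) _ _ _ (C.A j u)

/-- the entries of the form `Ψ` -/
noncomputable def Ψ (l j : Fin m) : ℂ := tr (C.R * C.A j * C.A l)

theorem conj_Ψ (l j : Fin m) : conj (C.Ψ l j) = C.Ψ j l := by
  rw [Ψ, Ψ, tr_comm (C.R * C.A l), ← mul_assoc, tr_comm (C.A j * C.R), ← mul_assoc]
  apply conj_tr
  intro u v
  simp only [Module.End.mul_apply]
  rw [C.R_symm, C.symm, C.symm]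

theorem HS : ∑ j, ∑ l, C.Ψ l j * C.Ψ j l =
    ((d : ℂ) / (d + 1)) * (rs d m * (rs d m * m)) + (1 / ((d : ℂ) + 1)) * tr (C.R ^ 4) := by
  -- the sum over `l`
  have h1 : ∀ j, ∑ l, C.Ψ l j * C.Ψ j l =
      ∑ v, tr (C.R * (C.A v * C.R * (C.A j * C.A v * C.A j))) := by
    intro j
    have e1 : ∀ l, C.Ψ l j * C.Ψ j l = tr (C.R * (tr (C.A l * (C.R * C.A j)) • C.A l) * C.A j) := by
      intro l
      rw [mul_smul_comm, smul_mul_assoc, tr_smul, Ψ, Ψ, tr_comm (C.A l)]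
    rw [Finset.sum_congr rfl fun l _ => e1 l, ← tr_sum, ← Finset.sum_mul, ← Finset.mul_sum]
    change tr (C.R * C.D (C.R * C.A j) * C.A j) = _
    rw [← C.T2, Finset.mul_sum, Finset.sum_mul, tr_sum]
    refine Finset.sum_congr rfl fun v _ => ?_
    simp only [mul_assoc]
  rw [Finset.sum_congr rfl fun j _ => h1 j, Finset.sum_comm]
  have h2 : ∀ v, ∑ j, tr (C.R * (C.A v * C.R * (C.A j * C.A v * C.A j))) =
      ((d : ℂ) / (d + 1)) * tr (C.R * (C.A v * C.R * C.A v)) +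
        (1 / ((d : ℂ) + 1)) * tr (C.R * ((C.τ v • C.A v) * C.R * C.R)) := by
    intro v
    rw [← tr_sum, ← Finset.mul_sum, ← Finset.mul_sum, C.T2, C.D_A, mul_add, mul_add, tr_add,
      mul_smul_comm, mul_smul_comm, mul_smul_comm, mul_smul_comm, tr_smul, tr_smul,
      smul_mul_assoc, smul_mul_assoc, mul_smul_comm, tr_smul]
    ring
  rw [Finset.sum_congr rfl fun v _ => h2 v, Finset.sum_add_distrib, ← Finset.mul_sum,
    ← Finset.mul_sum, ← tr_sum, ← tr_sum, ← Finset.mul_sum, ← Finset.mul_sum, C.T2, C.D_R,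
    mul_smul_comm, tr_smul, C.tr_RR, ← Finset.sum_mul, ← Finset.sum_mul]
  change _ + 1 / ((d : ℂ) + 1) * tr (C.R * (C.R * C.R * C.R)) = _
  congr 3

end Ctx

end Pool.Agent.Q125.Zauner
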