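import Mathlib
import Pool.Agent.Q125.Zauner.Alg3
import Pool.Agent.Q125.Zauner.Quant2

set_option autoImplicit false
set_option linter.unusedSectionVars false

namespace Pool.Agent.Q125.Zauner

open scoped InnerProductSpace ComplexConjugate
open Pool.Agent.H103R3 (rk rk_apply trace_rk Bisym)

namespace Ctx

variable {d m N : ℕ} (C : Ctx d m N)

/-- the sesquilinear map `u, v ↦ (⟨v, A_j u⟩)_j` -/
noncomputable def bt (u v : EE d) : EE m := WithLp.toLp 2 fun j => ⟪v, C.A j u⟫_ℂ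

theorem bt_apply (u v : EE d) (j : Fin m) : C.bt u v j = ⟪v, C.A j u⟫_ℂ := rfl

theorem inner_eq (z w : EE m) : ⟪z, w⟫_ℂ = ∑ j, w j * conj (z j) := by
  rw [PiLp.inner_apply]
  rfl

theorem inner_bt (s t u v : EE d) :
    ⟪C.bt s t, C.bt u v⟫_ℂ = ∑ j, ⟪s, C.A j t⟫_ℂ * ⟪v, C.A j u⟫_ℂ := by
  rw [inner_eq]
  refine Finset.sum_congr rfl fun j _ => ?_
  rw [bt_apply, bt_apply, inner_conj_symm, C.symm j, mul_comm]

/-- `B z = ∑ z_j A_j` -/
noncomputable def B (z : EE m) : Module.End ℂ (EE d) := ∑ j, z j • C.A j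

/-- the adjoint of `B z` -/
noncomputable def Bs (z : EE m) : Module.End ℂ (EE d) := ∑ j, conj (z j) • C.A j

theorem B_add (z w : EE m) : C.B (z + w) = C.B z + C.B w := by
  simp only [B, PiLp.add_apply, add_smul, Finset.sum_add_distrib]

theorem B_smul (c : ℂ) (z : EE m) : C.B (c • z) = c • C.B z := by
  simp only [B, PiLp.smul_apply, smul_eq_mul, mul_smul, Finset.smul_sum]

theorem inner_bt_left (u v : EE d) (z : EE m) : ⟪C.bt u v, z⟫_ℂ = ⟪u, C.B z v⟫_ℂ := by
  rw [inner_eq, B, LinearMap.sum_apply, inner_sum]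
  refine Finset.sum_congr rfl fun j _ => ?_
  rw [bt_apply, inner_conj_symm, C.symm j, LinearMap.smul_apply, inner_smul_right]

theorem adj_B (z : EE m) (u v : EE d) : ⟪C.B z u, v⟫_ℂ = ⟪u, C.Bs z v⟫_ℂ := by
  rw [B, Bs, LinearMap.sum_apply, LinearMap.sum_apply, sum_inner, inner_sum]
  refine Finset.sum_congr rfl fun j _ => ?_
  rw [LinearMap.smul_apply, LinearMap.smul_apply, inner_smul_left, inner_smul_right, C.symm j u v]

/-- conjugation -/
noncomputable def cj (z : EE m) : EE m := WithLp.toLp 2 fun j => conj (z j)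

theorem cj_apply (z : EE m) (j : Fin m) : cj z j = conj (z j) := rfl

theorem inner_cj (z w : EE m) : ⟪cj z, cj w⟫_ℂ = conj ⟪z, w⟫_ℂ := by
  rw [inner_eq, inner_eq, map_sum]
  refine Finset.sum_congr rfl fun j _ => ?_
  rw [cj_apply, cj_apply, map_mul]

theorem cj_cj (z : EE m) : cj (cj z) = z := by
  ext j
  rw [cj_apply, cj_apply, Complex.conj_conj]

theorem Bs_eq (z : EE m) : C.Bs z = C.B (cj z) := rfl

theorem B_eq (z : EE m) : C.B z = C.Bs (cj z) := by rw [Bs_eq, cj_cj]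

/-- the truncated moment datum of the context -/
noncomputable def dat : Dat (EE d) (EE m) (Fin N) where
  b := C.bt
  x := C.x
  add_left := by
    intro u u' v
    ext j
    simp only [bt_apply, PiLp.add_apply, map_add, inner_add_right]
  smul_left := by
    intro c u v
    ext j
    simp only [bt_apply, PiLp.smul_apply, map_smul, inner_smul_right, smul_eq_mul]
  add_right := by
    intro u v v'
    ext j
    simp only [bt_apply, PiLp.add_apply, inner_add_left]
  smul_right := by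
    intro c u v
    ext j
    simp only [bt_apply, PiLp.smul_apply, inner_smul_left, smul_eq_mul]
  sym1 := by
    intro s t u v
    rw [inner_bt, inner_bt]
    exact C.bisym s v t u
  sym2 := by
    intro s t u v
    rw [inner_bt, inner_bt, C.bisym s v t u]
    exact Finset.sum_congr rfl fun j _ => mul_comm _ _
  norm := by
    intro i j
    ext l
    rw [bt_apply, bt_apply, C.xAx, C.xAx]
  nondeg := by
    intro z hz
    have h : ∑ j, z j • C.A j = 0 := by
      ext1 v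
      refine ext_inner_left ℂ fun u => ?_
      have h1 := hz u v
      rw [inner_bt_left] at h1
      rw [LinearMap.zero_apply, inner_zero_right, ← h1]
      rfl
    have h2 := Fintype.linearIndependent_iff.mp C.indep _ h
    ext j
    exact h2 j

theorem mem_NN (q : Fin N) (z : EE m) : z ∈ C.dat.NN q ↔ C.B z (C.x q) = 0 := by
  rw [Dat.mem_NN]
  constructor
  · intro h
    refine ext_inner_left ℂ fun u => ?_
    rw [inner_zero_right, ← C.inner_bt_left]
    exact h u
  · intro h u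
    change ⟪C.bt u (C.x q), z⟫_ℂ = 0
    rw [C.inner_bt_left, h, inner_zero_right]

theorem mem_MM (q : Fin N) (z : EE m) : z ∈ C.dat.MM q ↔ C.B (cj z) (C.x q) = 0 := by
  rw [Dat.mem_MM]
  constructor
  · intro h
    refine ext_inner_right ℂ fun u => ?_
    rw [inner_zero_left, ← Bs_eq]
    have h1 := h u
    change ⟪C.bt (C.x q) u, z⟫_ℂ = 0 at h1
    rw [C.inner_bt_left] at h1
    have h2 : ⟪C.B z u, C.x q⟫_ℂ = 0 := by
      rw [← inner_conj_symm, h1, map_zero]
    rw [C.adj_B] at h2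
    rw [← inner_conj_symm, h2, map_zero]
  · intro h u
    change ⟪C.bt (C.x q) u, z⟫_ℂ = 0
    rw [C.inner_bt_left, ← inner_conj_symm, C.adj_B, Bs_eq, h, inner_zero_right, map_zero]

theorem inner_bt_x (q : Fin N) (s t : EE d) :
    ⟪C.bt s (C.x q), C.bt t (C.x q)⟫_ℂ = (1 / ((d : ℂ) + 1)) * ⟪s, C.R t⟫_ℂ := by
  rw [inner_bt, C.bisym, R, LinearMap.sum_apply, inner_sum, Finset.mul_sum]
  refine Finset.sum_congr rfl fun j _ => ?_
  rw [C.xAx, LinearMap.smul_apply, inner_smul_right]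
  ring

theorem inner_bt_x' (q : Fin N) (s t : EE d) :
    ⟪C.bt (C.x q) s, C.bt (C.x q) t⟫_ℂ = (1 / ((d : ℂ) + 1)) * ⟪t, C.R s⟫_ℂ := by
  rw [inner_bt, C.bisym, R, LinearMap.sum_apply, inner_sum, Finset.mul_sum]
  refine Finset.sum_congr rfl fun j _ => ?_
  rw [C.xAx, LinearMap.smul_apply, inner_smul_right]
  ring

/-- the operator `G_q` -/
noncomputable def G (q : Fin N) (z : EE m) : EE m :=
  ((d : ℂ) + 1) • C.bt (C.B z (C.x q)) (C.x q)

/-- `Λ_q = 1 - G_q` as a linear map -/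
noncomputable def Lam (q : Fin N) : EE m →ₗ[ℂ] EE m where
  toFun z := z - C.G q z
  map_add' z w := by
    have h : C.G q (z + w) = C.G q z + C.G q w := by
      rw [G, G, G, ← smul_add, B_add, LinearMap.add_apply]
      congr 1
      exact C.dat.add_left _ _ _
    rw [h]
    abel
  map_smul' c z := by
    have h : C.G q (c • z) = c • C.G q z := by
      rw [G, G, B_smul, LinearMap.smul_apply, smul_comm c]
      congr 1
      exact C.dat.smul_left _ _ _
    rw [h, RingHom.id_apply, smul_sub]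

theorem Lam_apply (q : Fin N) (z : EE m) : C.Lam q z = z - C.G q z := rfl

theorem Lam_of_NN (q : Fin N) (z : EE m) (h : C.B z (C.x q) = 0) : C.Lam q z = z := by
  rw [Lam_apply, G, h]
  have h0 : C.bt 0 (C.x q) = 0 := by
    ext j
    rw [bt_apply, map_zero, inner_zero_right]
    rfl
  rw [h0, smul_zero, sub_zero]

theorem inner_Lam (q : Fin N) (z : EE m) : ⟪C.Lam q z, C.Lam q z⟫_ℂ =
    ⟪z, z⟫_ℂ - 2 * ((d : ℂ) + 1) * ⟪C.x q, (C.Bs z * C.B z) (C.x q)⟫_ℂ +
      ((d : ℂ) + 1) * ⟪C.x q, (C.Bs z * C.R * C.B z) (C.x q)⟫_ℂ := by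
  have e1 : ⟪C.G q z, z⟫_ℂ = ((d : ℂ) + 1) * ⟪C.x q, (C.Bs z * C.B z) (C.x q)⟫_ℂ := by
    rw [G, inner_smul_left, inner_bt_left, C.adj_B, Module.End.mul_apply]
    congr 1
    simp
  have e2 : ⟪z, C.G q z⟫_ℂ = ((d : ℂ) + 1) * ⟪C.x q, (C.Bs z * C.B z) (C.x q)⟫_ℂ := by
    rw [← inner_conj_symm, e1, map_mul, inner_conj_symm, Module.End.mul_apply]
    have h : ⟪C.Bs z (C.B z (C.x q)), C.x q⟫_ℂ = ⟪C.x q, C.Bs z (C.B z (C.x q))⟫_ℂ := by
      rw [← C.adj_B, ← inner_conj_symm, ← C.adj_B, inner_conj_symm]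
    rw [h]
    congr 1
    simp
  have e3 : ⟪C.G q z, C.G q z⟫_ℂ = ((d : ℂ) + 1) * ⟪C.x q, (C.Bs z * C.R * C.B z) (C.x q)⟫_ℂ := by
    rw [G, inner_smul_left, inner_smul_right, inner_bt_x, C.adj_B, Module.End.mul_apply,
      Module.End.mul_apply]
    have hd := d1 (d := d)
    have h : conj ((d : ℂ) + 1) = (d : ℂ) + 1 := by simp
    rw [h]
    field_simp
  rw [Lam_apply, inner_sub_left, inner_sub_right, inner_sub_right, e1, e2, e3]
  ring

theorem sum_inner_Lam (z : EE m) : ∑ q, ⟪C.Lam q z, C.Lam q z⟫_ℂ =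
    (N : ℂ) * ⟪z, z⟫_ℂ - 2 * ((d : ℂ) + 1) * ((d : ℂ) * tr (C.Bs z * C.B z) -
      tr (C.R * C.Bs z * C.B z)) + ((d : ℂ) + 1) * ((d : ℂ) * tr (C.R * C.B z * C.Bs z) -
        tr (C.Bs z * C.R * C.B z * C.R)) := by
  rw [Finset.sum_congr rfl fun q _ => C.inner_Lam q z, Finset.sum_add_distrib,
    Finset.sum_sub_distrib, ← Finset.mul_sum, ← Finset.mul_sum, C.sum_tr, C.sum_tr]
  rw [Finset.sum_const, Finset.card_univ, Fintype.card_fin, nsmul_eq_mul]
  rw [tr_comm (C.Bs z * C.B z) C.R, mul_assoc C.R (C.Bs z), tr_comm (C.R * C.B z) (C.Bs z),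
    ← mul_assoc (C.Bs z) C.R]

end Ctx

end Pool.Agent.Q125.Zauner
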