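import Mathlib
import Pool.Agent.Q125.Zauner.Quant3

set_option autoImplicit false
set_option linter.unusedSectionVars false

namespace Pool.Agent.Q125.Zauner

open scoped InnerProductSpace ComplexConjugate
open Pool.Agent.H103R3 (rk rk_apply trace_rk Bisym)

namespace Ctx

variable {d m N : ℕ} (C : Ctx d m N)

theorem tr_BsB (z : EE m) : tr (C.Bs z * C.B z) =
    ((d : ℂ) / (d + 1)) * ⟪z, z⟫_ℂ +
      (1 / ((d : ℂ) + 1)) * (conj (∑ j, z j * C.τ j) * (∑ j, z j * C.τ j)) := by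
  have h1 : C.Bs z * C.B z = ∑ j, ∑ l, (conj (z j) * z l) • (C.A j * C.A l) := by
    rw [Bs, B, Finset.sum_mul]
    refine Finset.sum_congr rfl fun j _ => ?_
    rw [Finset.mul_sum]
    refine Finset.sum_congr rfl fun l _ => ?_
    rw [smul_mul_assoc, mul_smul_comm, smul_smul]
  have h2 : ∀ j l, tr ((conj (z j) * z l) • (C.A j * C.A l)) =
      (if j = l then ((d : ℂ) / (d + 1)) * (z l * conj (z j)) else 0) +
        (1 / ((d : ℂ) + 1)) * ((conj (z j) * C.τ j) * (z l * C.τ l)) := by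
    intro j l
    rw [tr_smul, C.trAA]
    split_ifs <;> ring
  rw [h1, tr_sum, Finset.sum_congr rfl fun j _ => tr_sum _ _]
  simp only [h2, Finset.sum_add_distrib, Finset.sum_ite_eq, Finset.mem_univ, if_true]
  rw [inner_eq, Finset.mul_sum]
  congr 1
  rw [map_sum, Finset.sum_mul, Finset.mul_sum]
  refine Finset.sum_congr rfl fun j _ => ?_
  rw [Finset.mul_sum, Finset.mul_sum]
  refine Finset.sum_congr rfl fun l _ => ?_
  rw [map_mul, C.conj_τ]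

theorem inner_self_re (z : EE m) : (⟪z, z⟫_ℂ).re = ‖z‖ ^ 2 := by
  have h := @inner_self_eq_norm_sq ℂ (EE m) _ _ _ z
  exact h

theorem inner_self_c (z : EE m) : ⟪z, z⟫_ℂ = ((‖z‖ ^ 2 : ℝ) : ℂ) := by
  rw [inner_self_eq_norm_sq_to_K]
  push_cast
  rfl

theorem re_tr_BsB (z : EE m) : (d : ℝ) / (d + 1) * ‖z‖ ^ 2 ≤ (tr (C.Bs z * C.B z)).re := by
  rw [C.tr_BsB, ← Complex.normSq_eq_conj_mul_self, inner_self_c]
  have h : ((d : ℂ) / (d + 1)) * ((‖z‖ ^ 2 : ℝ) : ℂ) +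
      (1 / ((d : ℂ) + 1)) * ((Complex.normSq (∑ j, z j * C.τ j) : ℝ) : ℂ) =
      (((d : ℝ) / (d + 1) * ‖z‖ ^ 2 + (1 / ((d : ℝ) + 1)) *
        Complex.normSq (∑ j, z j * C.τ j) : ℝ) : ℂ) := by
    push_cast
    ring
  rw [h, Complex.ofReal_re]
  have h1 : 0 ≤ (1 / ((d : ℝ) + 1)) * Complex.normSq (∑ j, z j * C.τ j) :=
    mul_nonneg (by positivity) (Complex.normSq_nonneg _)
  linarith

theorem re_tr_BRBR (z : EE m) : 0 ≤ (tr (C.Bs z * C.R * C.B z * C.R)).re := by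
  let e := EuclideanSpace.basisFun (Fin d) ℂ
  conv =>
    enter [2, 1, 1, 2]
    rw [← C.sum_AA]
  rw [Finset.mul_sum, tr_sum, Complex.re_sum]
  refine Finset.sum_nonneg fun j _ => ?_
  rw [← mul_assoc, tr_comm, tr_eq e, Complex.re_sum]
  refine Finset.sum_nonneg fun k _ => ?_
  simp only [Module.End.mul_apply]
  rw [← C.symm j, ← C.adj_B]
  exact C.R_nonneg _

/-- `Ψ(z) = tr (R B_z B_z^*)` -/
noncomputable def Psi (z : EE m) : ℝ := (tr (C.R * C.B z * C.Bs z)).re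

theorem sum_Lam_le (z : EE m) : ∑ q, ‖C.Lam q z‖ ^ 2 ≤
    ((N : ℝ) - 2 * d ^ 2) * ‖z‖ ^ 2 + 2 * (d + 1) * C.Psi (cj z) + d * (d + 1) * C.Psi z := by
  have h := congrArg Complex.re (C.sum_inner_Lam z)
  rw [Complex.re_sum, Finset.sum_congr rfl fun q _ => inner_self_re _] at h
  rw [h]
  have e1 : C.Psi (cj z) = (tr (C.R * C.Bs z * C.B z)).re := by
    rw [Psi, ← Bs_eq, ← B_eq]
  have e2 : C.Psi z = (tr (C.R * C.B z * C.Bs z)).re := rfl
  have e3 := C.re_tr_BsB z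
  have e4 := C.re_tr_BRBR z
  have e5 : ((N : ℂ) * ⟪z, z⟫_ℂ - 2 * ((d : ℂ) + 1) * ((d : ℂ) * tr (C.Bs z * C.B z) -
      tr (C.R * C.Bs z * C.B z)) + ((d : ℂ) + 1) * ((d : ℂ) * tr (C.R * C.B z * C.Bs z) -
        tr (C.Bs z * C.R * C.B z * C.R))).re =
      (N : ℝ) * ‖z‖ ^ 2 - 2 * ((d : ℝ) + 1) * (d * (tr (C.Bs z * C.B z)).re -
        (tr (C.R * C.Bs z * C.B z)).re) + ((d : ℝ) + 1) * (d * (tr (C.R * C.B z * C.Bs z)).re -
          (tr (C.Bs z * C.R * C.B z * C.R)).re) := by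
    rw [inner_self_c]
    have f1 : ∀ w : ℂ, ((d : ℂ) * w).re = d * w.re := fun w => by
      rw [← Complex.ofReal_natCast, Complex.re_ofReal_mul]
    have f2 : ∀ w : ℂ, (((d : ℂ) + 1) * w).re = (d + 1) * w.re := fun w => by
      have : ((d : ℂ) + 1) = (((d : ℝ) + 1 : ℝ) : ℂ) := by push_cast; ring
      rw [this, Complex.re_ofReal_mul]
    have f3 : ∀ w : ℂ, (2 * ((d : ℂ) + 1) * w).re = 2 * (d + 1) * w.re := fun w => by
      have : 2 * ((d : ℂ) + 1) = ((2 * ((d : ℝ) + 1) : ℝ) : ℂ) := by push_cast; ring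
      rw [this, Complex.re_ofReal_mul]
    have f4 : ∀ w : ℂ, ((N : ℂ) * w).re = N * w.re := fun w => by
      rw [← Complex.ofReal_natCast, Complex.re_ofReal_mul]
    rw [Complex.add_re, Complex.sub_re, f4, f3, f2, Complex.sub_re, Complex.sub_re, f1, f1,
      Complex.ofReal_re]
  rw [e5, e1, e2]
  have hd0 : (0 : ℝ) < (d : ℝ) + 1 := by positivity
  have e6 : 2 * ((d : ℝ) + 1) * (d * ((d : ℝ) / (d + 1) * ‖z‖ ^ 2)) = 2 * d ^ 2 * ‖z‖ ^ 2 := by
    field_simp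
  have e7 : 2 * ((d : ℝ) + 1) * (d * ((d : ℝ) / (d + 1) * ‖z‖ ^ 2)) ≤
      2 * ((d : ℝ) + 1) * (d * (tr (C.Bs z * C.B z)).re) := by
    have : (0 : ℝ) ≤ d := by positivity
    gcongr
  have e8 : 0 ≤ ((d : ℝ) + 1) * (tr (C.Bs z * C.R * C.B z * C.R)).re := mul_nonneg hd0.le e4
  nlinarith

/-- `Ψ(z)` in coordinates -/
theorem Psi_eq (z : EE m) : tr (C.R * C.B z * C.Bs z) =
    ∑ l, conj (z l) * ∑ j, z j * C.Ψ l j := by
  have h1 : C.R * C.B z * C.Bs z = ∑ l, ∑ j, (conj (z l) * z j) • (C.R * C.A j * C.A l) := by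
    rw [Bs, B, Finset.mul_sum]
    refine Finset.sum_congr rfl fun l _ => ?_
    rw [Finset.mul_sum, Finset.sum_mul]
    refine Finset.sum_congr rfl fun j _ => ?_
    rw [mul_smul_comm, mul_smul_comm, smul_mul_assoc, smul_smul]
  rw [h1, tr_sum]
  refine Finset.sum_congr rfl fun l _ => ?_
  rw [tr_sum, Finset.mul_sum]
  refine Finset.sum_congr rfl fun j _ => ?_
  rw [tr_smul, Ψ, mul_assoc]

/-- `r*` as a real number -/
noncomputable def rr (d m : ℕ) : ℝ := ((d : ℝ) + m) / (d + 1)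

theorem rs_eq : rs d m = ((rr d m : ℝ) : ℂ) := by
  rw [rs, rr]; push_cast; ring

theorem tr_R4_real : tr (C.R ^ 4) = (((tr (C.R ^ 4)).re : ℝ) : ℂ) := by
  have h : conj (tr (C.R ^ 4)) = tr (C.R ^ 4) := by
    apply conj_tr
    intro u v
    have h : ∀ w, (C.R ^ 4) w = C.R (C.R (C.R (C.R w))) := by
      intro w
      simp only [pow_succ, pow_zero, one_mul, Module.End.mul_apply]
    rw [h, h, C.R_symm, C.R_symm, C.R_symm, C.R_symm]
  exact (Complex.conj_eq_iff_re.mp h).symm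

/-- the squared Hilbert-Schmidt norm of `Ψ - r*` -/
noncomputable def HSr : ℝ := ((tr (C.R ^ 4)).re - rr d m ^ 2 * m) / (d + 1)

/-- the rows of `Ψ - r*` -/
noncomputable def ρ (l : Fin m) : EE m :=
  WithLp.toLp 2 fun j => conj (C.Ψ l j - if l = j then rs d m else 0)

theorem inner_ρ (l : Fin m) (z : EE m) :
    ⟪C.ρ l, z⟫_ℂ = ∑ j, z j * C.Ψ l j - rs d m * z l := by
  rw [inner_eq]
  have h : ∀ j, z j * conj (C.ρ l j) = z j * C.Ψ l j - (if l = j then rs d m * z j else 0) := by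
    intro j
    have : C.ρ l j = conj (C.Ψ l j - if l = j then rs d m else 0) := rfl
    rw [this, Complex.conj_conj]
    split_ifs <;> ring
  rw [Finset.sum_congr rfl fun j _ => h j, Finset.sum_sub_distrib, Finset.sum_ite_eq,
    if_pos (Finset.mem_univ l)]

theorem sum_ρ : ∑ l, ‖C.ρ l‖ ^ 2 = C.HSr := by
  have h : ((∑ l, ‖C.ρ l‖ ^ 2 : ℝ) : ℂ) = ((C.HSr : ℝ) : ℂ) := by
    rw [Complex.ofReal_sum]
    have e1 : ∀ l, ((‖C.ρ l‖ ^ 2 : ℝ) : ℂ) = ∑ j, (C.Ψ l j * C.Ψ j l -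
        (if l = j then 2 * rs d m * C.Ψ l j - rs d m * rs d m else 0)) := by
      intro l
      rw [← inner_self_c, inner_eq]
      refine Finset.sum_congr rfl fun j _ => ?_
      have : C.ρ l j = conj (C.Ψ l j - if l = j then rs d m else 0) := rfl
      rw [this, Complex.conj_conj, map_sub, C.conj_Ψ]
      split_ifs with hlj
      · subst hlj
        rw [rs_eq, Complex.conj_ofReal]
        ring
      · rw [map_zero]
        ring
    rw [Finset.sum_congr rfl fun l _ => e1 l]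
    simp only [Finset.sum_sub_distrib, Finset.sum_ite_eq, Finset.mem_univ, if_true]
    rw [Finset.sum_comm, C.HS]
    have e2 : ∑ l, C.Ψ l l = rs d m * m := by
      rw [← C.tr_RR]
      have : ∑ l, C.Ψ l l = tr (C.R * ∑ l, C.A l * C.A l) := by
        rw [Finset.mul_sum, tr_sum]
        refine Finset.sum_congr rfl fun l _ => ?_
        rw [Ψ, mul_assoc]
      rw [this, C.sum_AA]
    rw [← Finset.mul_sum, e2, Finset.sum_const, Finset.card_univ, Fintype.card_fin, nsmul_eq_mul,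
      HSr, C.tr_R4_real, rs_eq]
    have hd := d1 (d := d)
    push_cast
    rw [Complex.ofReal_re]
    field_simp
    ring
  exact_mod_cast h

/-- the key trace bound -/
theorem psi_sum {κ : Type*} [Fintype κ] (t : κ → EE m) (ht : Orthonormal ℂ t) {lam : ℝ}
    (hlam : 0 < lam) : ∑ a, C.Psi (t a) ≤
      rr d m * Fintype.card κ + (lam * Fintype.card κ + C.HSr / lam) / 2 := by
  have h1 : ∀ a, C.Psi (t a) ≤ rr d m + (lam + (∑ l, ‖⟪C.ρ l, t a⟫_ℂ‖ ^ 2) / lam) / 2 := by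
    intro a
    have hn : ‖t a‖ ^ 2 = 1 := by rw [ht.1 a, one_pow]
    have hn' : ∑ l, ‖t a l‖ ^ 2 = 1 := by rw [← hn, EuclideanSpace.norm_sq_eq]
    have e1 : tr (C.R * C.B (t a) * C.Bs (t a)) =
        ((rr d m : ℝ) : ℂ) + ∑ l, conj (t a l) * ⟪C.ρ l, t a⟫_ℂ := by
      rw [C.Psi_eq]
      have : ((rr d m : ℝ) : ℂ) = ∑ l, rs d m * (t a l * conj (t a l)) := by
        rw [← Finset.mul_sum, ← inner_eq, inner_self_c, hn, rs_eq]
        push_cast
        ring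
      rw [this, ← Finset.sum_add_distrib]
      refine Finset.sum_congr rfl fun l _ => ?_
      rw [C.inner_ρ]
      ring
    rw [Psi, e1, Complex.add_re, Complex.ofReal_re]
    have e2 : (∑ l, conj (t a l) * ⟪C.ρ l, t a⟫_ℂ).re ≤ ∑ l, ‖t a l‖ * ‖⟪C.ρ l, t a⟫_ℂ‖ := by
      refine (Complex.re_le_norm _).trans ((norm_sum_le _ _).trans_eq ?_)
      refine Finset.sum_congr rfl fun l _ => ?_
      rw [norm_mul, RCLike.norm_conj]
    have e3 : ∀ l, ‖t a l‖ * ‖⟪C.ρ l, t a⟫_ℂ‖ ≤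
        (lam * ‖t a l‖ ^ 2 + ‖⟪C.ρ l, t a⟫_ℂ‖ ^ 2 / lam) / 2 := by
      intro l
      have h := sq_nonneg (lam * ‖t a l‖ - ‖⟪C.ρ l, t a⟫_ℂ‖)
      have h2 : ‖⟪C.ρ l, t a⟫_ℂ‖ ^ 2 / lam * lam = ‖⟪C.ρ l, t a⟫_ℂ‖ ^ 2 := by field_simp
      have h3 : 0 ≤ lam * ((lam * ‖t a l‖ ^ 2 + ‖⟪C.ρ l, t a⟫_ℂ‖ ^ 2 / lam) -
          2 * (‖t a l‖ * ‖⟪C.ρ l, t a⟫_ℂ‖)) := by nlinarith
      have h4 := nonneg_of_mul_nonneg_right h3 hlam
      linarith
    have e4 : ∑ l, ‖t a l‖ * ‖⟪C.ρ l, t a⟫_ℂ‖ ≤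
        (lam + (∑ l, ‖⟪C.ρ l, t a⟫_ℂ‖ ^ 2) / lam) / 2 := by
      refine (Finset.sum_le_sum fun l _ => e3 l).trans_eq ?_
      rw [← Finset.sum_div, Finset.sum_add_distrib, ← Finset.mul_sum, hn', mul_one,
        ← Finset.sum_div]
    linarith
  have h2 : ∑ a, ∑ l, ‖⟪C.ρ l, t a⟫_ℂ‖ ^ 2 ≤ C.HSr := by
    rw [Finset.sum_comm, ← C.sum_ρ]
    refine Finset.sum_le_sum fun l _ => ?_
    have h := ht.sum_inner_products_le (C.ρ l) (s := Finset.univ)
    refine le_trans (le_of_eq ?_) h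
    refine Finset.sum_congr rfl fun a _ => ?_
    rw [norm_inner_symm]
  calc ∑ a, C.Psi (t a) ≤ ∑ a, (rr d m + (lam + (∑ l, ‖⟪C.ρ l, t a⟫_ℂ‖ ^ 2) / lam) / 2) :=
        Finset.sum_le_sum fun a _ => h1 a
    _ = rr d m * Fintype.card κ +
        (lam * Fintype.card κ + (∑ a, ∑ l, ‖⟪C.ρ l, t a⟫_ℂ‖ ^ 2) / lam) / 2 := by
        rw [Finset.sum_add_distrib, ← Finset.sum_div, Finset.sum_add_distrib, ← Finset.sum_div]
        simp only [Finset.sum_const, Finset.card_univ, nsmul_eq_mul]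
        ring
    _ ≤ _ := by gcongr

end Ctx

end Pool.Agent.Q125.Zauner
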