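import Mathlib
import Pool.Agent.Q125.Zauner.Quant4

set_option autoImplicit false
set_option linter.unusedSectionVars false

namespace Pool.Agent.Q125.Zauner

open scoped InnerProductSpace ComplexConjugate
open Pool.Agent.H103R3 (rk rk_apply trace_rk Bisym)

namespace Ctx

variable {d m N : ℕ} (C : Ctx d m N)

theorem hfin : Module.finrank ℂ (EE d) = d := by rw [finrank_euclideanSpace, Fintype.card_fin]

noncomputable def ev (a : Fin d) : ℝ := C.R_symm.eigenvalues hfin a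
noncomputable def fb : OrthonormalBasis (Fin d) ℂ (EE d) := C.R_symm.eigenvectorBasis hfin

theorem R_fb (a : Fin d) : C.R (C.fb a) = (C.ev a : ℂ) • C.fb a :=
  C.R_symm.apply_eigenvectorBasis hfin a

theorem fb_inner (a b : Fin d) : ⟪C.fb a, C.fb b⟫_ℂ = if a = b then 1 else 0 :=
  orthonormal_iff_ite.mp C.fb.orthonormal a b

theorem sum_ev : ∑ a, C.ev a = m := by
  have h := C.tr_R
  rw [tr_eq C.fb] at h
  have e : ∀ a, ⟪C.fb a, C.R (C.fb a)⟫_ℂ = (C.ev a : ℂ) := by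
    intro a
    rw [C.R_fb, inner_smul_right, C.fb_inner, if_pos rfl, mul_one]
  rw [Finset.sum_congr rfl fun a _ => e a, ← Complex.ofReal_sum] at h
  exact_mod_cast h

theorem sum_ev2 : ∑ a, C.ev a ^ 2 = rr d m * m := by
  have h := C.tr_RR
  rw [tr_eq C.fb] at h
  have e : ∀ a, ⟪C.fb a, (C.R * C.R) (C.fb a)⟫_ℂ = ((C.ev a ^ 2 : ℝ) : ℂ) := by
    intro a
    rw [Module.End.mul_apply, C.R_fb, map_smul, C.R_fb, inner_smul_right, inner_smul_right,
      C.fb_inner, if_pos rfl]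
    push_cast
    ring
  rw [Finset.sum_congr rfl fun a _ => e a, ← Complex.ofReal_sum, rs_eq] at h
  have h2 : ((∑ a, C.ev a ^ 2 : ℝ) : ℂ) = ((rr d m * m : ℝ) : ℂ) := by
    rw [h]; push_cast; ring
  exact_mod_cast h2

theorem tr_R4 : (tr (C.R ^ 4)).re = ∑ a, C.ev a ^ 4 := by
  have h : tr (C.R ^ 4) = ((∑ a, C.ev a ^ 4 : ℝ) : ℂ) := by
    rw [tr_eq C.fb, Complex.ofReal_sum]
    refine Finset.sum_congr rfl fun a _ => ?_
    have e : (C.R ^ 4) (C.fb a) = ((C.ev a : ℂ) ^ 4) • C.fb a := by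
      simp only [pow_succ, pow_zero, one_mul, Module.End.mul_apply, C.R_fb, map_smul, smul_smul,
        mul_assoc]
    rw [e, inner_smul_right, C.fb_inner, if_pos rfl]
    push_cast
    ring
  rw [h, Complex.ofReal_re]

theorem ev_nonneg (a : Fin d) : 0 ≤ C.ev a := by
  have h := C.R_nonneg (C.fb a)
  rw [C.R_fb, inner_smul_right, C.fb_inner, if_pos rfl, mul_one, Complex.ofReal_re] at h
  exact h

/-- the set of nonzero eigenvalues -/
noncomputable def nz : Finset (Fin d) := Finset.univ.filter fun a => C.ev a ≠ 0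

theorem dim_NN (q : Fin N) : Module.finrank ℂ (C.dat.NN q) + C.nz.card ≤ m := by
  classical
  let v : C.nz → EE m := fun a => C.bt (C.fb a) (C.x q)
  have hv : ∀ a b : C.nz, ⟪v a, v b⟫_ℂ = if a = b then (C.ev b : ℂ) / (d + 1) else 0 := by
    intro a b
    rw [C.inner_bt_x, C.R_fb, inner_smul_right, C.fb_inner]
    by_cases h : a = b
    · rw [if_pos h, if_pos (by rw [h])]
      ring
    · rw [if_neg h, if_neg (fun h' => h (Subtype.ext h'))]
      ring
  have hd := d1 (d := d)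
  have hli : LinearIndependent ℂ v := by
    apply linearIndependent_of_ne_zero_of_inner_eq_zero
    · intro a h0
      have h1 := hv a a
      rw [h0, inner_zero_left, if_pos rfl] at h1
      have h2 : (C.ev a : ℂ) ≠ 0 := by
        exact_mod_cast (Finset.mem_filter.mp a.2).2
      exact (div_ne_zero h2 hd) h1.symm
    · intro a b hab
      rw [hv, if_neg hab]
  have h1 := finrank_span_eq_card hli
  have h2 := Submodule.finrank_add_finrank_orthogonal (Submodule.span ℂ (Set.range v))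
  have h3 : C.dat.NN q ≤ (Submodule.span ℂ (Set.range v))ᗮ := by
    intro z hz
    rw [Submodule.mem_orthogonal]
    intro u hu
    induction hu using Submodule.span_induction with
    | mem u hu => obtain ⟨a, rfl⟩ := hu; exact hz _
    | zero => exact inner_zero_left _
    | add a b _ _ ha hb => rw [inner_add_left, ha, hb, add_zero]
    | smul c a _ ha => rw [inner_smul_left, ha, mul_zero]
  have h4 := Submodule.finrank_mono h3
  rw [hfin] at h2
  rw [Fintype.card_coe] at h1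
  omega

theorem dim_MM (q : Fin N) : Module.finrank ℂ (C.dat.MM q) + C.nz.card ≤ m := by
  classical
  let v : C.nz → EE m := fun a => C.bt (C.x q) (C.fb a)
  have hv : ∀ a b : C.nz, ⟪v a, v b⟫_ℂ = if a = b then (C.ev b : ℂ) / (d + 1) else 0 := by
    intro a b
    rw [C.inner_bt_x', C.R_fb, inner_smul_right, C.fb_inner]
    by_cases h : a = b
    · rw [if_pos h, if_pos (by rw [h]), h]
      ring
    · rw [if_neg h, if_neg (fun h' => h (Subtype.ext h'.symm))]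
      ring
  have hd := d1 (d := d)
  have hli : LinearIndependent ℂ v := by
    apply linearIndependent_of_ne_zero_of_inner_eq_zero
    · intro a h0
      have h1 := hv a a
      rw [h0, inner_zero_left, if_pos rfl] at h1
      have h2 : (C.ev a : ℂ) ≠ 0 := by
        exact_mod_cast (Finset.mem_filter.mp a.2).2
      exact (div_ne_zero h2 hd) h1.symm
    · intro a b hab
      rw [hv, if_neg hab]
  have h1 := finrank_span_eq_card hli
  have h2 := Submodule.finrank_add_finrank_orthogonal (Submodule.span ℂ (Set.range v))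
  have h3 : C.dat.MM q ≤ (Submodule.span ℂ (Set.range v))ᗮ := by
    intro z hz
    rw [Submodule.mem_orthogonal]
    intro u hu
    induction hu using Submodule.span_induction with
    | mem u hu => obtain ⟨a, rfl⟩ := hu; exact hz _
    | zero => exact inner_zero_left _
    | add a b _ _ ha hb => rw [inner_add_left, ha, hb, add_zero]
    | smul c a _ ha => rw [inner_smul_left, ha, mul_zero]
  have h4 := Submodule.finrank_mono h3
  rw [hfin] at h2
  rw [Fintype.card_coe] at h1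
  omega

theorem sum_nz (g : ℝ → ℝ) (hg : g 0 = 0) : ∑ a ∈ C.nz, g (C.ev a) = ∑ a, g (C.ev a) := by
  rw [nz, Finset.sum_filter]
  refine Finset.sum_congr rfl fun a _ => ?_
  split_ifs with h
  · rfl
  · push Not at h
    rw [h, hg]

/-- the rank bound -/
theorem rank_bound : (m : ℝ) * (d + 1) ≤ C.nz.card * (d + m) := by
  have h1 : (∑ a ∈ C.nz, C.ev a) ^ 2 ≤ C.nz.card * ∑ a ∈ C.nz, C.ev a ^ 2 := sq_sum_le_card_mul_sum_sq
  have e1 : ∑ a ∈ C.nz, C.ev a = m := by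
    rw [C.sum_nz (fun r => r) rfl, C.sum_ev]
  have e2 : ∑ a ∈ C.nz, C.ev a ^ 2 = rr d m * m := by
    rw [C.sum_nz (fun r => r ^ 2) (by norm_num), C.sum_ev2]
  rw [e1, e2, rr] at h1
  rcases Nat.eq_zero_or_pos m with h0 | h0
  · have hm0 : (m : ℝ) = 0 := by exact_mod_cast h0
    rw [hm0, zero_mul]
    positivity
  · have hm : (0 : ℝ) < m := by exact_mod_cast h0
    have hd : (0 : ℝ) < (d : ℝ) + 1 := by positivity
    have h2 : (m : ℝ) ^ 2 * (d + 1) ≤ (C.nz.card * (d + m)) * m := by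
      have h3 : (C.nz.card : ℝ) * (((d : ℝ) + m) / (d + 1) * m) * (d + 1) =
          (C.nz.card * (d + m)) * m := by
        field_simp
      rw [← h3]
      exact mul_le_mul_of_nonneg_right h1 hd.le
    have h4 : (m : ℝ) * (d + 1) * m ≤ (C.nz.card * (d + m)) * m := by nlinarith
    exact le_of_mul_le_mul_right h4 hm

/-- `s = m(m-1)/(d+1)` -/
noncomputable def ss (d m : ℕ) : ℝ := (m : ℝ) * (m - 1) / (d + 1)

theorem rr_m (d m : ℕ) : rr d m * m = m + ss d m := by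
  rw [rr, ss]
  have hd : (d : ℝ) + 1 ≠ 0 := by positivity
  field_simp
  ring

theorem HSr_le (hs : 1 ≤ ss d m) (hh : C.nz.card ≤ m) : C.HSr ≤ 12 * ss d m ^ 2 / (d + 1) := by
  have hd : (0 : ℝ) < (d : ℝ) + 1 := by positivity
  rw [HSr]
  refine div_le_div_of_nonneg_right ?_ hd.le
  rw [C.tr_R4]
  set s := ss d m with hs'
  have hm : (1 : ℝ) ≤ m := by
    rcases Nat.eq_zero_or_pos m with h0 | h0
    · exfalso
      rw [hs', ss, h0] at hs
      norm_num at hs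
    · exact_mod_cast h0
  have hrr : 1 ≤ rr d m := by
    rw [rr, le_div_iff₀ hd]
    linarith
  have e1 : ∑ a ∈ C.nz, (C.ev a - 1) ^ 2 ≤ s := by
    have : ∑ a ∈ C.nz, (C.ev a - 1) ^ 2 = (m + s) - 2 * m + C.nz.card := by
      have h1 : ∀ a ∈ C.nz, (C.ev a - 1) ^ 2 = C.ev a ^ 2 - 2 * C.ev a + 1 := fun a _ => by ring
      rw [Finset.sum_congr rfl h1, Finset.sum_add_distrib, Finset.sum_sub_distrib, ← Finset.mul_sum,
        C.sum_nz (fun r => r) rfl, C.sum_ev, C.sum_nz (fun r => r ^ 2) (by norm_num), C.sum_ev2,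
        rr_m, ← hs']
      simp
    rw [this]
    have : (C.nz.card : ℝ) ≤ m := by exact_mod_cast hh
    linarith
  have e2 : ∀ a ∈ C.nz, C.ev a ^ 4 ≤ 3 * C.ev a ^ 2 - 2 * C.ev a + 9 * s * (C.ev a - 1) ^ 2 := by
    intro a ha
    have h1 : (C.ev a - 1) ^ 2 ≤ s :=
      (Finset.single_le_sum (f := fun a => (C.ev a - 1) ^ 2) (fun _ _ => sq_nonneg _) ha).trans e1
    have h2 : C.ev a * (C.ev a + 2) ≤ 9 * s := by nlinarith [sq_nonneg (C.ev a - 2)]
    have h3 := mul_le_mul_of_nonneg_right h2 (sq_nonneg (C.ev a - 1))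
    nlinarith
  have e3 : ∑ a, C.ev a ^ 4 ≤ 3 * (m + s) - 2 * m + 9 * s * s := by
    rw [← C.sum_nz (fun r => r ^ 4) (by norm_num)]
    refine (Finset.sum_le_sum e2).trans ?_
    rw [Finset.sum_add_distrib, Finset.sum_sub_distrib, ← Finset.mul_sum, ← Finset.mul_sum,
      ← Finset.mul_sum, C.sum_nz (fun r => r) rfl, C.sum_ev, C.sum_nz (fun r => r ^ 2) (by norm_num),
      C.sum_ev2, rr_m]
    have : 9 * s * ∑ a ∈ C.nz, (C.ev a - 1) ^ 2 ≤ 9 * s * s := by
      have : 0 ≤ 9 * s := by linarith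
      exact mul_le_mul_of_nonneg_left e1 this
    linarith
  have e4 : (m : ℝ) ≤ rr d m ^ 2 * m := by
    have : (1 : ℝ) ≤ rr d m ^ 2 := by nlinarith
    nlinarith
  nlinarith

/-- the separation estimate -/
theorem one_le {κ : Type*} [Fintype κ] (t : κ → EE m) (ht : Orthonormal ℂ t) (q : Fin N) (z : EE m)
    (hz : z = ∑ a, ⟪t a, z⟫_ℂ • t a) (hz0 : z ≠ 0) (hB : C.B z (C.x q) = 0) :
    1 ≤ ∑ a, ‖C.Lam q (t a)‖ ^ 2 := by
  have h1 : z = ∑ a, ⟪t a, z⟫_ℂ • C.Lam q (t a) := by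
    have h2 := C.Lam_of_NN q z hB
    conv_lhs => rw [← h2, hz]
    rw [map_sum]
    exact Finset.sum_congr rfl fun a _ => map_smul _ _ _
  have h2 : ‖z‖ ≤ ∑ a, ‖⟪t a, z⟫_ℂ‖ * ‖C.Lam q (t a)‖ := by
    conv_lhs => rw [h1]
    refine (norm_sum_le _ _).trans_eq ?_
    exact Finset.sum_congr rfl fun a _ => norm_smul _ _
  have h3 : (∑ a, ‖⟪t a, z⟫_ℂ‖ * ‖C.Lam q (t a)‖) ^ 2 ≤
      (∑ a, ‖⟪t a, z⟫_ℂ‖ ^ 2) * ∑ a, ‖C.Lam q (t a)‖ ^ 2 :=
    Finset.sum_mul_sq_le_sq_mul_sq _ _ _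
  have h4 : ∑ a, ‖⟪t a, z⟫_ℂ‖ ^ 2 ≤ ‖z‖ ^ 2 := ht.sum_inner_products_le z
  have h5 : 0 < ‖z‖ ^ 2 := by positivity
  have h6 : 0 ≤ ∑ a, ‖C.Lam q (t a)‖ ^ 2 := Finset.sum_nonneg fun _ _ => by positivity
  have h7 : ‖z‖ ^ 2 ≤ (∑ a, ‖⟪t a, z⟫_ℂ‖ * ‖C.Lam q (t a)‖) ^ 2 :=
    pow_le_pow_left₀ (norm_nonneg _) h2 2
  have h8 : ‖z‖ ^ 2 * 1 ≤ ‖z‖ ^ 2 * ∑ a, ‖C.Lam q (t a)‖ ^ 2 := by
    rw [mul_one]
    exact h7.trans (h3.trans (mul_le_mul_of_nonneg_right h4 h6))
  exact le_of_mul_le_mul_left h8 h5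

open Classical in
/-- the indices which are not generic with respect to `T` -/
noncomputable def bad (T : Submodule ℂ (EE m)) : Finset (Fin N) :=
  Finset.univ.filter fun q => ¬ C.dat.Gen q T

theorem card_bad (T : Submodule ℂ (EE m)) {lam : ℝ} (hlam : 0 < lam) :
    ((C.bad T).card : ℝ) ≤ 2 * (((N : ℝ) - 2 * d ^ 2) * Module.finrank ℂ T +
      (d + 1) * (d + 2) * (rr d m * Module.finrank ℂ T +
        (lam * Module.finrank ℂ T + C.HSr / lam) / 2)) := by
  classical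
  let b := stdOrthonormalBasis ℂ T
  let t : Fin (Module.finrank ℂ T) → EE m := fun a => (b a : EE m)
  have ht : Orthonormal ℂ t := b.orthonormal.comp_linearIsometry T.subtypeₗᵢ
  let t' : Fin (Module.finrank ℂ T) → EE m := fun a => cj (t a)
  have ht' : Orthonormal ℂ t' := by
    rw [orthonormal_iff_ite]
    intro a c
    rw [inner_cj, orthonormal_iff_ite.mp ht a c]
    split_ifs <;> simp
  have hexp : ∀ z ∈ T, z = ∑ a, ⟪t a, z⟫_ℂ • t a := by
    intro z hz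
    have h := b.sum_repr' ⟨z, hz⟩
    have h2 := congrArg T.subtype h
    rw [map_sum] at h2
    exact h2.symm
  have hq : ∀ q ∈ C.bad T, (1 : ℝ) ≤ ∑ a, ‖C.Lam q (t a)‖ ^ 2 + ∑ a, ‖C.Lam q (t' a)‖ ^ 2 := by
    intro q hq
    have hq' := (Finset.mem_filter.mp hq).2
    have n1 : 0 ≤ ∑ a, ‖C.Lam q (t a)‖ ^ 2 := Finset.sum_nonneg fun _ _ => by positivity
    have n2 : 0 ≤ ∑ a, ‖C.Lam q (t' a)‖ ^ 2 := Finset.sum_nonneg fun _ _ => by positivity
    by_cases hN : ∀ z ∈ T, z ∈ C.dat.NN q → z = 0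
    · have hM : ¬ ∀ z ∈ T, z ∈ C.dat.MM q → z = 0 := fun hM => hq' ⟨hN, hM⟩
      push Not at hM
      obtain ⟨z, hzT, hzM, hz0⟩ := hM
      have h1 := C.one_le t' ht' q (cj z) (by
        conv_lhs => rw [hexp z hzT]
        ext j
        rw [cj_apply]
        simp only [smul_eq_mul, t', inner_cj, WithLp.ofLp_sum, WithLp.ofLp_smul,
          Finset.sum_apply, Pi.smul_apply, map_sum, map_mul, cj_apply]) (by
        intro h0
        apply hz0
        rw [← cj_cj z, h0]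
        ext j
        rw [cj_apply]
        simp) ((C.mem_MM q z).mp hzM)
      linarith
    · push Not at hN
      obtain ⟨z, hzT, hzN, hz0⟩ := hN
      have h1 := C.one_le t ht q z (hexp z hzT) hz0 ((C.mem_NN q z).mp hzN)
      linarith
  have h1 : ((C.bad T).card : ℝ) ≤ ∑ q, (∑ a, ‖C.Lam q (t a)‖ ^ 2 + ∑ a, ‖C.Lam q (t' a)‖ ^ 2) := by
    calc ((C.bad T).card : ℝ) = ∑ q ∈ C.bad T, (1 : ℝ) := by simp
      _ ≤ ∑ q ∈ C.bad T, (∑ a, ‖C.Lam q (t a)‖ ^ 2 + ∑ a, ‖C.Lam q (t' a)‖ ^ 2) :=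
          Finset.sum_le_sum hq
      _ ≤ _ := by
          refine Finset.sum_le_sum_of_subset_of_nonneg (Finset.subset_univ _) fun q _ _ => ?_
          have n1 : 0 ≤ ∑ a, ‖C.Lam q (t a)‖ ^ 2 := Finset.sum_nonneg fun _ _ => by positivity
          have n2 : 0 ≤ ∑ a, ‖C.Lam q (t' a)‖ ^ 2 := Finset.sum_nonneg fun _ _ => by positivity
          linarith
  rw [Finset.sum_add_distrib, Finset.sum_comm,
    Finset.sum_comm (f := fun q a => ‖C.Lam q (t' a)‖ ^ 2)] at h1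
  have h2 : ∀ a, ∑ q, ‖C.Lam q (t a)‖ ^ 2 ≤ ((N : ℝ) - 2 * d ^ 2) +
      2 * (d + 1) * C.Psi (t' a) + d * (d + 1) * C.Psi (t a) := by
    intro a
    have h := C.sum_Lam_le (t a)
    rw [ht.1 a] at h
    simpa using h
  have h3 : ∀ a, ∑ q, ‖C.Lam q (t' a)‖ ^ 2 ≤ ((N : ℝ) - 2 * d ^ 2) +
      2 * (d + 1) * C.Psi (t a) + d * (d + 1) * C.Psi (t' a) := by
    intro a
    have h := C.sum_Lam_le (t' a)
    rw [ht'.1 a, cj_cj] at h
    simpa using h
  have h4 : ∑ a, ∑ q, ‖C.Lam q (t a)‖ ^ 2 + ∑ a, ∑ q, ‖C.Lam q (t' a)‖ ^ 2 ≤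
      2 * ((N : ℝ) - 2 * d ^ 2) * Module.finrank ℂ T +
        (d + 1) * (d + 2) * (∑ a, C.Psi (t a) + ∑ a, C.Psi (t' a)) := by
    refine (add_le_add (Finset.sum_le_sum fun a _ => h2 a)
      (Finset.sum_le_sum fun a _ => h3 a)).trans_eq ?_
    simp only [Finset.sum_add_distrib, ← Finset.mul_sum, Finset.sum_const, Finset.card_univ,
      Fintype.card_fin, nsmul_eq_mul]
    ring
  have h5 := C.psi_sum t ht hlam
  have h6 := C.psi_sum t' ht' hlam
  rw [Fintype.card_fin] at h5 h6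
  have h7 : 0 ≤ ((d : ℝ) + 1) * (d + 2) := by positivity
  have h8 := mul_le_mul_of_nonneg_left (add_le_add h5 h6) h7
  linarith

theorem spans_of {T : Submodule ℂ (EE m)}
    (hb : 2 * (((C.bad T).card : ℝ) + m) < d * (d + 1)) :
    C.dat.Spans {q | C.dat.Gen q T} := by
  classical
  by_contra hcon
  rw [Dat.Spans, ← Submodule.orthogonal_eq_bot_iff, Submodule.eq_bot_iff] at hcon
  push Not at hcon
  obtain ⟨z, hz, hz0⟩ := hcon
  rw [Submodule.mem_orthogonal] at hz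
  have hx : ∀ q, q ∉ C.bad T → ⟪C.x q, z⟫_ℂ = 0 := by
    intro q hq
    apply hz
    apply Submodule.subset_span
    refine ⟨q, ?_, rfl⟩
    by_contra h
    exact hq (Finset.mem_filter.mpr ⟨Finset.mem_univ _, h⟩)
  set n2 : ℝ := ‖z‖ ^ 2 with hn2
  have hn0 : 0 < n2 := by rw [hn2]; positivity
  have hzz : ⟪z, z⟫_ℂ = (n2 : ℂ) := by
    rw [inner_self_eq_norm_sq_to_K, hn2]
    push_cast
    rfl
  -- real numbers
  have hreal : ∀ w : ℂ, conj w = w → w = ((w.re : ℝ) : ℂ) := fun w h =>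
    (Complex.conj_eq_iff_re.mp h).symm
  have hα : ∀ j, conj ⟪z, C.A j z⟫_ℂ = ⟪z, C.A j z⟫_ℂ := by
    intro j
    rw [inner_conj_symm, C.symm j]
  set α : Fin m → ℝ := fun j => (⟪z, C.A j z⟫_ℂ).re with hαd
  have hα' : ∀ j, ⟪z, C.A j z⟫_ℂ = (α j : ℂ) := fun j => hreal _ (hα j)
  set τr : Fin m → ℝ := fun j => (C.τ j).re with hτd
  have hτ' : ∀ j, C.τ j = (τr j : ℂ) := fun j => hreal _ (C.conj_τ j)
  set w : Fin N → ℝ := fun i => ‖⟪C.x i, z⟫_ℂ‖ ^ 2 with hw
  have hw' : ∀ i, ⟪z, C.x i⟫_ℂ * ⟪C.x i, z⟫_ℂ = (w i : ℂ) := by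
    intro i
    rw [← inner_conj_symm z, Complex.conj_mul', hw]
    push_cast
    rfl
  have hw0 : ∀ i, i ∉ C.bad T → w i = 0 := by
    intro i hi
    rw [hw]
    simp only
    rw [hx i hi, norm_zero]
    norm_num
  have E1 : ∑ j, τr j * α j + ∑ i, w i = d * n2 := by
    have h := congrArg (fun X : Module.End ℂ (EE d) => ⟪z, X z⟫_ℂ) C.R_eq
    simp only [LinearMap.sub_apply, LinearMap.smul_apply, Module.End.one_apply, inner_sub_right,
      inner_smul_right, LinearMap.sum_apply, inner_sum, rk_apply, R, hzz, hα', hτ'] at h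
    have h1 : ∀ i, ⟪C.x i, z⟫_ℂ * ⟪z, C.x i⟫_ℂ = (w i : ℂ) := fun i => by rw [mul_comm, hw']
    rw [Finset.sum_congr rfl fun i _ => h1 i] at h
    have h2 : ((∑ j, τr j * α j + ∑ i, w i : ℝ) : ℂ) = ((d * n2 : ℝ) : ℂ) := by
      push_cast
      rw [h]
      ring
    exact_mod_cast h2
  have E2 : ∑ j, α j ^ 2 + ∑ i, w i ^ 2 = 2 * d / (d + 1) * n2 ^ 2 := by
    have h := C.K z z z z
    rw [hzz] at h
    have h1 : ∀ i, ⟪z, C.x i⟫_ℂ * ⟪C.x i, z⟫_ℂ * (⟪z, C.x i⟫_ℂ * ⟪C.x i, z⟫_ℂ) =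
        ((w i ^ 2 : ℝ) : ℂ) := by
      intro i
      rw [hw']
      push_cast
      ring
    have h2 : ∀ j, ⟪z, C.A j z⟫_ℂ * ⟪z, C.A j z⟫_ℂ = ((α j ^ 2 : ℝ) : ℂ) := by
      intro j
      rw [hα']
      push_cast
      ring
    rw [Finset.sum_congr rfl fun i _ => h1 i, Finset.sum_congr rfl fun i _ => h2 i] at h
    have h3 : ((∑ j, α j ^ 2 + ∑ i, w i ^ 2 : ℝ) : ℂ) = ((2 * d / (d + 1) * n2 ^ 2 : ℝ) : ℂ) := by
      push_cast at h ⊢
      rw [h]
      ring
    exact_mod_cast h3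
  have E3 : ∑ j, τr j ^ 2 = m := by
    have h := C.sum_ττ
    have h1 : ((∑ j, τr j ^ 2 : ℝ) : ℂ) = ((m : ℝ) : ℂ) := by
      push_cast
      rw [← h]
      refine Finset.sum_congr rfl fun j _ => ?_
      rw [hτ']
      ring
    exact_mod_cast h1
  -- Cauchy-Schwarz
  let f : Fin m ⊕ Fin N → ℝ := Sum.elim τr fun i => if i ∈ C.bad T then 1 else 0
  let g : Fin m ⊕ Fin N → ℝ := Sum.elim α w
  have hcs := Finset.sum_mul_sq_le_sq_mul_sq Finset.univ f g
  have F1 : ∑ k, f k * g k = d * n2 := by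
    rw [Fintype.sum_sum_type, ← E1]
    congr 1
    refine Finset.sum_congr rfl fun i _ => ?_
    simp only [f, g, Sum.elim_inr]
    split_ifs with hi
    · rw [one_mul]
    · rw [hw0 i hi, mul_zero]
  have F2 : ∑ k, f k ^ 2 = m + (C.bad T).card := by
    rw [Fintype.sum_sum_type, ← E3]
    congr 1
    have e : ∀ i, f (Sum.inr i) ^ 2 = if i ∈ C.bad T then (1 : ℝ) else 0 := by
      intro i
      simp only [f, Sum.elim_inr]
      split_ifs <;> norm_num
    rw [Finset.sum_congr rfl fun i _ => e i, Finset.sum_boole, Finset.filter_mem_eq_inter,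
      Finset.univ_inter]
  have F3 : ∑ k, g k ^ 2 = 2 * d / (d + 1) * n2 ^ 2 := by
    rw [Fintype.sum_sum_type, ← E2]
    rfl
  rw [F1, F2, F3] at hcs
  have hd0 : (0 : ℝ) < d := by exact_mod_cast C.hd
  have hd1 : (0 : ℝ) < (d : ℝ) + 1 := by positivity
  have G1 : ((m : ℝ) + (C.bad T).card) * (2 * d / (d + 1) * n2 ^ 2) * (d + 1) =
      ((m : ℝ) + (C.bad T).card) * (2 * d) * n2 ^ 2 := by
    have e : 2 * (d : ℝ) / (d + 1) * n2 ^ 2 * (d + 1) = 2 * d * n2 ^ 2 := by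
      rw [div_mul_eq_mul_div, div_mul_cancel₀ _ hd1.ne']
    rw [mul_assoc, e]
    ring
  have G2 : ((d : ℝ) * n2) ^ 2 * (d + 1) ≤ ((m : ℝ) + (C.bad T).card) * (2 * d) * n2 ^ 2 := by
    rw [← G1]
    exact mul_le_mul_of_nonneg_right hcs hd1.le
  have G3 : (d * (d + 1)) * (d * n2 ^ 2) ≤ (2 * ((C.bad T).card + (m : ℝ))) * (d * n2 ^ 2) := by
    nlinarith
  have G4 : (0 : ℝ) < d * n2 ^ 2 := by positivity
  have G5 := le_of_mul_le_mul_right G3 G4
  linarith

end Ctx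

end Pool.Agent.Q125.Zauner
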