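import Mathlib
import Pool.Agent.Q125.Zauner.Quant5

set_option autoImplicit false
set_option linter.unusedSectionVars false

namespace Pool.Agent.Q125.Zauner

open scoped InnerProductSpace ComplexConjugate
open Pool.Agent.H103R3 (rk rk_apply trace_rk Bisym)

theorem arith_large {D M : ℝ} (hD : 1 ≤ D) (hM : 1 ≤ M) (hdm : D + M ≤ M * (M - 1))
    (hMD : 100 * M ^ 3 ≤ D ^ 2) : 100 ≤ M ∧ 100 ≤ D := by
  have h2 : D < M ^ 2 := by nlinarith
  have hM3 : 0 < M ^ 3 := by positivity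
  have h1 : D ^ 2 < M ^ 4 := by
    calc D ^ 2 < (M ^ 2) ^ 2 := pow_lt_pow_left₀ h2 (by linarith) two_ne_zero
      _ = M ^ 4 := by ring
  have h3 : 100 * M ^ 3 < M * M ^ 3 := by
    calc 100 * M ^ 3 ≤ D ^ 2 := hMD
      _ < M ^ 4 := h1
      _ = M * M ^ 3 := by ring
  have h4 : 100 < M := lt_of_mul_lt_mul_right h3 hM3.le
  refine ⟨h4.le, ?_⟩
  have h5 : (1 : ℝ) ≤ M ^ 3 := one_le_pow₀ hM
  have h6 : (100 : ℝ) ^ 3 ≤ M ^ 3 := pow_le_pow_left₀ (by norm_num) h4.le 3
  have h7 : (100 : ℝ) ^ 2 ≤ D ^ 2 := by linarith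
  exact (pow_le_pow_iff_left₀ (by norm_num) (by linarith) two_ne_zero).mp h7

theorem arith_poly {D M : ℝ} (hM100 : 100 ≤ M) (hD100 : 100 ≤ D) (hMD : 100 * M ^ 3 ≤ D ^ 2) :
    84 * (D * M ^ 3) + 56 * (D * M ^ 2) + 128 * M ^ 3 + 2 * (M * D) + 2 * M <
      D * (D + 1) * (D + 1) := by
  have hM0 : 0 < M := by linarith
  have hD0 : 0 < D := by linarith
  have q2 : 100 * (D * M ^ 3) ≤ D ^ 3 := by
    have := mul_le_mul_of_nonneg_left hMD hD0.le
    calc 100 * (D * M ^ 3) = D * (100 * M ^ 3) := by ring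
      _ ≤ D * D ^ 2 := this
      _ = D ^ 3 := by ring
  have hDM : 0 < D * M ^ 3 := by positivity
  have q3 : 56 * (D * M ^ 2) ≤ D * M ^ 3 := by
    have h1 : 0 ≤ D * M ^ 2 := by positivity
    have h2 : 56 * (D * M ^ 2) ≤ M * (D * M ^ 2) := mul_le_mul_of_nonneg_right (by linarith) h1
    linarith
  have q4 : 128 * M ^ 3 ≤ 2 * (D * M ^ 3) := by
    have h1 : 0 ≤ M ^ 3 := by positivity
    have h2 : 128 * M ^ 3 ≤ (2 * D) * M ^ 3 := mul_le_mul_of_nonneg_right (by linarith) h1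
    linarith
  have q5 : 2 * (M * D) ≤ D * M ^ 3 := by
    have h1 : (2 : ℝ) ≤ M ^ 2 := by nlinarith
    have h2 : 0 ≤ M * D := by positivity
    have h3 : 2 * (M * D) ≤ M ^ 2 * (M * D) := mul_le_mul_of_nonneg_right h1 h2
    linarith
  have q6 : 2 * M ≤ D * M ^ 3 := by
    have h0 : (1 : ℝ) ≤ M ^ 2 := one_le_pow₀ (by linarith)
    have h1 : 2 * M ≤ D * M := mul_le_mul_of_nonneg_right (by linarith) hM0.le
    have h2 : D * M ≤ M ^ 2 * (D * M) := by
      have : 0 ≤ D * M := by positivity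
      nlinarith
    linarith
  have q7 : D * (D + 1) * (D + 1) = D ^ 3 + 2 * D ^ 2 + D := by ring
  rw [q7]
  have : 0 < D ^ 2 := by positivity
  linarith

theorem arith_e1 {D M t H : ℝ} (hD1 : 0 < D + 1) (hM : 0 < M) :
    (D + 1) * (D + 2) * ((D + M) / (D + 1) * t + ((M / (D + 1)) * t +
      H / (M / (D + 1))) / 2) = (D + 2) * (D + M) * t + (D + 2) * M * t / 2 +
        (D + 1) ^ 2 * (D + 2) * H / (2 * M) := by
  have h1 := hM.ne'
  have h2 := hD1.ne'
  field_simp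
  ring

theorem arith_e2 {D M H s : ℝ} (hD1 : 0 < D + 1) (hM : 0 < M)
    (hsD : s * (D + 1) = M * (M - 1)) (hH' : H ≤ 12 * s ^ 2 / (D + 1)) :
    (D + 1) ^ 2 * (D + 2) * H / (2 * M) ≤ 6 * (D + 2) * s * (M - 1) := by
  have h1 : (D + 1) ^ 2 * (D + 2) * H ≤ (D + 1) ^ 2 * (D + 2) * (12 * s ^ 2 / (D + 1)) := by
    have : 0 ≤ (D + 1) ^ 2 * (D + 2) := by
      have : 0 < D + 2 := by linarith
      positivity
    exact mul_le_mul_of_nonneg_left hH' this
  have h2 : (D + 1) ^ 2 * (D + 2) * (12 * s ^ 2 / (D + 1)) =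
      12 * (D + 2) * s * (s * (D + 1)) := by
    have := hD1.ne'
    field_simp
  rw [h2, hsD] at h1
  rw [div_le_iff₀ (by linarith)]
  linarith

/-- the final arithmetic -/
theorem arith {D M t δ H b : ℝ} (hD : 1 ≤ D) (hM : 1 ≤ M) (hδ : 1 ≤ δ) (ht0 : 0 ≤ t)
    (ht : t ≤ 10 * δ) (hδM : δ * (D + M) ≤ M * (M - 1)) (hMD : 100 * M ^ 3 ≤ D ^ 2)
    (hH : 1 ≤ M * (M - 1) / (D + 1) → H ≤ 12 * (M * (M - 1) / (D + 1)) ^ 2 / (D + 1))
    (hb : b ≤ 2 * (((D ^ 2 - M) - 2 * D ^ 2) * t + (D + 1) * (D + 2) * ((D + M) / (D + 1) * t +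
      ((M / (D + 1)) * t + H / (M / (D + 1))) / 2))) : 2 * (b + M) < D * (D + 1) := by
  have hD1 : 0 < D + 1 := by linarith
  obtain ⟨s, hs⟩ : ∃ s, s = M * (M - 1) / (D + 1) := ⟨_, rfl⟩
  rw [← hs] at hH
  have hsD : s * (D + 1) = M * (M - 1) := by rw [hs]; field_simp
  have hdm : D + M ≤ M * (M - 1) := by
    have : 0 ≤ D + M := by linarith
    have := mul_le_mul_of_nonneg_right hδ this
    linarith
  obtain ⟨hM100, hD100⟩ := arith_large hD hM hdm hMD
  have hs1 : 1 ≤ s := by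
    rw [hs, le_div_iff₀ hD1]
    linarith
  have hH' := hH hs1
  have hts : t ≤ 10 * s := by
    have h1 : t * (D + M) ≤ 10 * s * (D + M) := by
      have h2 : t * (D + M) ≤ 10 * δ * (D + M) := mul_le_mul_of_nonneg_right ht (by linarith)
      have h3 : s * (D + 1) ≤ s * (D + M) := mul_le_mul_of_nonneg_left (by linarith) (by linarith)
      linarith
    exact le_of_mul_le_mul_right h1 (by linarith)
  rw [arith_e1 hD1 (by linarith)] at hb
  have e2 := arith_e2 hD1 (by linarith) hsD hH'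
  obtain ⟨P, hP⟩ : ∃ P, P = D * M + 2 * D + M + (D + 2) * M / 2 := ⟨_, rfl⟩
  have hP0 : 0 ≤ P := by rw [hP]; positivity
  have hb2 : b ≤ 2 * (t * P + 6 * (D + 2) * s * (M - 1)) := by
    have e : (D ^ 2 - M - 2 * D ^ 2) * t + ((D + 2) * (D + M) * t + (D + 2) * M * t / 2) = t * P := by
      rw [hP]; ring
    linarith
  have hb3 : b ≤ 2 * s * (10 * P + 6 * (D + 2) * (M - 1)) := by
    have h1 := mul_le_mul_of_nonneg_right hts hP0
    have e : 2 * s * (10 * P + 6 * (D + 2) * (M - 1)) =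
      2 * (10 * s * P + 6 * (D + 2) * s * (M - 1)) := by ring
    rw [e]
    linarith
  have e3 : 10 * P + 6 * (D + 2) * (M - 1) = 21 * (D * M) + 14 * D + 32 * M - 12 := by
    rw [hP]; ring
  rw [e3] at hb3
  have hb4 : b * (D + 1) ≤ 2 * (M * (M - 1)) * (21 * (D * M) + 14 * D + 32 * M - 12) := by
    have h1 := mul_le_mul_of_nonneg_right hb3 hD1.le
    rw [← hsD]
    linarith
  have hDM0 : 0 ≤ D * M := by positivity
  have a1 : 0 ≤ 21 * (D * M) + 14 * D + 32 * M - 12 := by linarith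
  have h5 : 2 * (M * (M - 1)) * (21 * (D * M) + 14 * D + 32 * M - 12) ≤
      2 * M ^ 2 * (21 * (D * M) + 14 * D + 32 * M) := by
    have a2 : M * (M - 1) ≤ M ^ 2 := by
      have : M * (M - 1) = M ^ 2 - M := by ring
      linarith
    calc 2 * (M * (M - 1)) * (21 * (D * M) + 14 * D + 32 * M - 12)
        ≤ 2 * M ^ 2 * (21 * (D * M) + 14 * D + 32 * M - 12) := by
          apply mul_le_mul_of_nonneg_right _ a1
          linarith
      _ ≤ _ := by
          apply mul_le_mul_of_nonneg_left _ (by positivity)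
          linarith
  have h6 : 2 * (b + M) * (D + 1) < D * (D + 1) * (D + 1) := by
    have q1 : 2 * (b + M) * (D + 1) ≤ 84 * (D * M ^ 3) + 56 * (D * M ^ 2) + 128 * M ^ 3 +
        2 * (M * D) + 2 * M := by
      have e : 2 * M ^ 2 * (21 * (D * M) + 14 * D + 32 * M) =
        42 * (D * M ^ 3) + 28 * (D * M ^ 2) + 64 * M ^ 3 := by ring
      have e' : 2 * (b + M) * (D + 1) = 2 * (b * (D + 1)) + 2 * (M * D) + 2 * M := by ring
      rw [e']
      linarith
    exact q1.trans_lt (arith_poly hM100 hD100 hMD)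
  exact lt_of_mul_lt_mul_right h6 hD1.le

namespace Ctx

variable {d m N : ℕ} (C : Ctx d m N)

theorem finrank_TT (A : Finset (Fin N)) (hA : A.card ≤ 5) :
    Module.finrank ℂ (C.dat.TT A) ≤ 10 * (m - C.nz.card) := by
  classical
  have h : ∀ A : Finset (Fin N), Module.finrank ℂ (C.dat.TT A) ≤ A.card * (2 * (m - C.nz.card)) := by
    intro A
    induction A using Finset.induction_on with
    | empty => rw [Dat.TT, Finset.sup_empty, finrank_bot]; exact Nat.zero_le _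
    | insert a s ha ih =>
      rw [Finset.card_insert_of_notMem ha]
      have h1 : C.dat.TT (insert a s) = (C.dat.NN a ⊔ C.dat.MM a) ⊔ C.dat.TT s := by
        rw [Dat.TT, Dat.TT, Finset.sup_insert]
      rw [h1]
      have h2 := Submodule.finrank_add_le_finrank_add_finrank (C.dat.NN a ⊔ C.dat.MM a) (C.dat.TT s)
      have h3 := Submodule.finrank_add_le_finrank_add_finrank (C.dat.NN a) (C.dat.MM a)
      have h4 := C.dim_NN a
      have h5 := C.dim_MM a
      have h6 : Module.finrank ℂ ↥(C.dat.NN a ⊔ C.dat.MM a) ≤ 2 * (m - C.nz.card) := by omega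
      calc _ ≤ 2 * (m - C.nz.card) + s.card * (2 * (m - C.nz.card)) := by omega
        _ = _ := by ring
  refine (h A).trans ?_
  calc A.card * (2 * (m - C.nz.card)) ≤ 5 * (2 * (m - C.nz.card)) := Nat.mul_le_mul_right _ hA
    _ = _ := by ring

theorem spans_all (hm : 100 * m ^ 3 ≤ d ^ 2) (A : Finset (Fin N)) (hA : A.card ≤ 5) :
    C.dat.Spans {q | C.dat.Gen q (C.dat.TT A)} := by
  classical
  apply C.spans_of
  have hT := C.finrank_TT A hA
  have hD : (1 : ℝ) ≤ d := by exact_mod_cast C.hd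
  have hMD : 100 * (m : ℝ) ^ 3 ≤ (d : ℝ) ^ 2 := by exact_mod_cast hm
  rcases Nat.eq_zero_or_pos (Module.finrank ℂ (C.dat.TT A)) with h0 | h0
  · -- trivial case
    have hbot : C.dat.TT A = ⊥ := Submodule.finrank_eq_zero.mp h0
    have hbad : C.bad (C.dat.TT A) = ∅ := by
      rw [bad, Finset.filter_eq_empty_iff]
      intro q _
      rw [not_not, hbot]
      exact ⟨fun z hz _ => (Submodule.mem_bot ℂ).mp hz, fun z hz _ => (Submodule.mem_bot ℂ).mp hz⟩
    rw [hbad, Finset.card_empty]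
    push_cast
    rcases Nat.eq_zero_or_pos m with hm0 | hm0
    · have : (m : ℝ) = 0 := by exact_mod_cast hm0
      rw [this]
      nlinarith
    · have hM : (1 : ℝ) ≤ m := by exact_mod_cast hm0
      have : (m : ℝ) ≤ (m : ℝ) ^ 3 := by
        have : (1 : ℝ) ≤ (m : ℝ) ^ 2 := by nlinarith
        nlinarith
      nlinarith
  · have hpos : 1 ≤ m - C.nz.card := by omega
    have hle : C.nz.card ≤ m := by omega
    have hM0 : 1 ≤ m := by omega
    have hM : (1 : ℝ) ≤ m := by exact_mod_cast hM0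
    set δ : ℝ := (m : ℝ) - C.nz.card with hδ
    have hδ' : ((m - C.nz.card : ℕ) : ℝ) = δ := by rw [Nat.cast_sub hle]
    have hδ1 : 1 ≤ δ := by rw [← hδ']; exact_mod_cast hpos
    have hT' : (Module.finrank ℂ (C.dat.TT A) : ℝ) ≤ 10 * δ := by
      rw [← hδ']
      exact_mod_cast hT
    have hrb := C.rank_bound
    have hδM : δ * (d + m) ≤ (m : ℝ) * (m - 1) := by
      rw [hδ]
      nlinarith
    have hNr : (N : ℝ) = (d : ℝ) ^ 2 - m := by
      have : (m : ℝ) + N = (d : ℝ) ^ 2 := by exact_mod_cast C.card_eq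
      linarith
    have hlam : 0 < (m : ℝ) / (d + 1) := by positivity
    have hcb := C.card_bad (C.dat.TT A) hlam
    rw [hNr] at hcb
    have hH : 1 ≤ (m : ℝ) * (m - 1) / (d + 1) →
        C.HSr ≤ 12 * ((m : ℝ) * (m - 1) / (d + 1)) ^ 2 / (d + 1) := fun h => C.HSr_le h hle
    have := arith (D := d) (M := m) (t := Module.finrank ℂ (C.dat.TT A)) (δ := δ) (H := C.HSr)
      (b := (C.bad (C.dat.TT A)).card) hD hM hδ1 (by positivity) hT' hδM hMD hH (by
        rw [rr] at hcb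
        exact hcb)
    exact this

end Ctx

end Pool.Agent.Q125.Zauner
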