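import Mathlib
import Pool.Agent.Q125.Zauner.Quant6
import Pool.Agent.H103R3.HermGen

set_option autoImplicit false
set_option linter.unusedSectionVars false

namespace Pool.Agent.Q125.Zauner

open scoped InnerProductSpace ComplexConjugate
open Pool.Agent.H103R3 (rk rk_apply trace_rk Bisym)

namespace Ctx

variable {d m N : ℕ} (C : Ctx d m N)

include C in
theorem N_pos (hm : 100 * m ^ 3 ≤ d ^ 2) : 0 < N := by
  rcases Nat.eq_zero_or_pos N with h | h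
  · exfalso
    have h1 := C.card_eq
    rw [h, add_zero] at h1
    subst h1
    have hd := C.hd
    have h2 : 1 ≤ d ^ 2 := Nat.one_le_pow _ _ hd
    have h3 : d ^ 2 ≤ (d ^ 2) ^ 3 := by
      calc d ^ 2 = (d ^ 2) ^ 1 := (pow_one _).symm
        _ ≤ (d ^ 2) ^ 3 := Nat.pow_le_pow_right h2 (by norm_num)
    omega
  · exact h

theorem nontriv (hd : 0 < d) : Nontrivial (EE d) := by
  apply Module.nontrivial_of_finrank_pos (R := ℂ)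
  rw [finrank_euclideanSpace, Fintype.card_fin]
  exact hd

/-- the coefficient vector of `w w^*` -/
noncomputable def wv (w : EE d) : EE m := WithLp.toLp 2 fun j =>
  conj ((((d : ℂ) + 1) / d) * (⟪w, C.A j w⟫_ℂ - C.τ j / (d + 1)))

theorem wv_spec (w : EE d) (hw : ‖w‖ = 1)
    (hwx : ∀ i, ‖⟪C.x i, w⟫_ℂ‖ = 1 / Real.sqrt ((d : ℝ) + 1)) (u v : EE d) :
    ⟪C.wv w, C.bt u v⟫_ℂ = ⟪w, u⟫_ℂ * ⟪v, w⟫_ℂ := by
  have hd0 : (d : ℂ) ≠ 0 := by exact_mod_cast C.hd.ne'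
  have hd1 := d1 (d := d)
  have hww : ⟪w, w⟫_ℂ = 1 := by
    rw [inner_self_eq_norm_sq_to_K, hw]; simp
  have h := C.K_tr (rk w w) v u
  have e0 : ∀ i, ⟪C.x i, rk w w (C.x i)⟫_ℂ = 1 / ((d : ℂ) + 1) := by
    intro i
    rw [rk_apply, inner_smul_right, mul_comm, Pool.Agent.H103R3.inner_mul_inner_of (hwx i)]
    push_cast
    rfl
  have e1 : tr (rk w w) = 1 := by
    have h1 : tr (rk w w) = ⟪w, w⟫_ℂ := trace_rk _ _
    rw [h1, hww]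
  have e2 : ∑ i, (⟪v, C.x i⟫_ℂ * ⟪C.x i, u⟫_ℂ) = (d : ℂ) * ⟪v, u⟫_ℂ - ⟪v, C.R u⟫_ℂ := by
    rw [C.R_eq, LinearMap.sub_apply, inner_sub_right, LinearMap.smul_apply, inner_smul_right,
      Module.End.one_apply, sub_sub_cancel, LinearMap.sum_apply, inner_sum]
    refine Finset.sum_congr rfl fun i _ => ?_
    rw [rk_apply, inner_smul_right]
    ring
  have e4 : ∑ i, ⟪C.x i, rk w w (C.x i)⟫_ℂ * (⟪v, C.x i⟫_ℂ * ⟪C.x i, u⟫_ℂ) =
      (1 / ((d : ℂ) + 1)) * ∑ i, (⟪v, C.x i⟫_ℂ * ⟪C.x i, u⟫_ℂ) := by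
    rw [Finset.mul_sum]
    exact Finset.sum_congr rfl fun i _ => by rw [e0 i]
  rw [e4, e2, e1, rk_apply, inner_smul_right, one_mul] at h
  have e3 : ⟪C.wv w, C.bt u v⟫_ℂ =
      (((d : ℂ) + 1) / d) * (∑ j, tr (C.A j * rk w w) * ⟪v, C.A j u⟫_ℂ -
        (1 / ((d : ℂ) + 1)) * ⟪v, C.R u⟫_ℂ) := by
    rw [inner_eq, R, LinearMap.sum_apply, inner_sum, Finset.mul_sum, ← Finset.sum_sub_distrib,
      Finset.mul_sum]
    refine Finset.sum_congr rfl fun j _ => ?_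
    rw [bt_apply, LinearMap.smul_apply, inner_smul_right, tr_mul_rk]
    change _ * conj (conj _) = _
    rw [Complex.conj_conj]
    ring
  rw [e3]
  field_simp at h ⊢
  linear_combination h

/-- **The completion theorem.** -/
theorem main (hm : 100 * m ^ 3 ≤ d ^ 2) :
    ∃ y : Fin m → EE d,
      (∀ u v w z : EE d, ∑ j, ⟪u, C.A j v⟫_ℂ * ⟪w, C.A j z⟫_ℂ =
        ∑ k, (⟪u, y k⟫_ℂ * ⟪y k, v⟫_ℂ) * (⟪w, y k⟫_ℂ * ⟪y k, z⟫_ℂ)) ∧
      ∀ w : EE d, ‖w‖ = 1 → (∀ i, ‖⟪C.x i, w⟫_ℂ‖ = 1 / Real.sqrt ((d : ℝ) + 1)) →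
        ∃ (k : Fin m) (c : ℂ), w = c • y k := by
  classical
  have := nontriv C.hd
  have hN := C.N_pos hm
  obtain ⟨y, hy1, hy2⟩ := C.dat.structure_thm (C.spans_all hm) ⟨0, hN⟩
  have hf : m = Module.finrank ℂ (EE m) := by
    rw [finrank_euclideanSpace, Fintype.card_fin]
  refine ⟨fun k => y (Fin.cast hf k), ?_, ?_⟩
  · intro u v w z
    have h := hy1 u v z w
    change ⟪C.bt u v, C.bt z w⟫_ℂ = _ at h
    rw [inner_bt] at h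
    rw [h]
    exact (Equiv.sum_comp (finCongr hf) fun k =>
      (⟪u, y k⟫_ℂ * ⟪y k, v⟫_ℂ) * (⟪w, y k⟫_ℂ * ⟪y k, z⟫_ℂ)).symm
  · intro w hw hwx
    have hpos : (0 : ℝ) < 1 / Real.sqrt ((d : ℝ) + 1) := by positivity
    obtain ⟨k, c, hk⟩ := hy2 w (C.wv w) (C.wv_spec w hw hwx)
      (by rintro rfl; rw [norm_zero] at hw; exact zero_ne_one hw)
      (by
        intro i
        change ⟪C.x i, w⟫_ℂ * ⟪w, C.x i⟫_ℂ = ⟪C.x _, w⟫_ℂ * ⟪w, C.x _⟫_ℂ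
        rw [Pool.Agent.H103R3.inner_mul_inner_of (hwx i),
          Pool.Agent.H103R3.inner_mul_inner_of (hwx _)])
      (by
        change ⟪w, C.x _⟫_ℂ ≠ 0
        intro h0
        have h1 := hwx ⟨0, hN⟩
        rw [← inner_conj_symm, h0, map_zero, norm_zero] at h1
        exact hpos.ne h1)
    refine ⟨Fin.cast hf.symm k, c, ?_⟩
    rw [hk]
    rfl

end Ctx

/-- completion with the correct angle -/
theorem completion {d N : ℕ} (hd : 1 ≤ d) (x : Fin N → EuclideanSpace ℂ (Fin d))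
    (hx1 : ∀ i, ‖x i‖ = 1)
    (hx2 : ∀ i j, i ≠ j → ‖inner ℂ (x i) (x j)‖ = 1 / Real.sqrt ((d : ℝ) + 1))
    (hN : 100 * (d ^ 2 - N) ^ 3 ≤ d ^ 2) :
    ∃ (m : ℕ) (y : Fin m → EuclideanSpace ℂ (Fin d)), m + N = d ^ 2 ∧
      (∀ u v w z : EE d, ∑ k : Fin N ⊕ Fin m,
        (⟪u, Sum.elim x y k⟫_ℂ * ⟪Sum.elim x y k, v⟫_ℂ) *
          (⟪w, Sum.elim x y k⟫_ℂ * ⟪Sum.elim x y k, z⟫_ℂ) =
        ((d : ℂ) / (d + 1)) * (⟪u, z⟫_ℂ * ⟪w, v⟫_ℂ + ⟪u, v⟫_ℂ * ⟪w, z⟫_ℂ)) ∧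
      ∀ w : EE d, ‖w‖ = 1 → (∀ i, ‖⟪x i, w⟫_ℂ‖ = 1 / Real.sqrt ((d : ℝ) + 1)) →
        ∃ (k : Fin m) (c : ℂ), w = c • y k := by
  obtain ⟨m, A, hle, hs, hK⟩ := Pool.Agent.H103R3.exists_complement hd x hx1 hx2
  let C : Ctx d m N := ⟨A, x, hd, hs, hK, hx1, hx2, hle⟩
  have hc := C.card_eq
  have hm : 100 * m ^ 3 ≤ d ^ 2 := by
    have : d ^ 2 - N = m := by omega
    rw [this] at hN
    exact hN
  obtain ⟨y, hy1, hy2⟩ := C.main hm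
  refine ⟨m, y, hc, ?_, hy2⟩
  intro u v w z
  rw [Fintype.sum_sum_type, ← hK u v w z]
  simp only [Sum.elim_inl, Sum.elim_inr]
  rw [← hy1 u v w z, add_comm]

end Pool.Agent.Q125.Zauner
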